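import Pool.Agent.K6.H89.BG.Len

/-!
# A model of the Baumslag–Gersten group

The base group `Af` is the group of the pairs `(r, k)`, `r ∈ ℚ × ℤ/3`, `k ∈ ℤ`, with the
multiplication `(r, k) (s, l) = (r + 2^k s, k + l)`.
-/

set_option autoImplicit false

namespace Pool.Agent.K6.H89.BG

open HNNExtension HNNExtension.NormalWord

/-- the ring of the translation parts -/
abbrev R : Type := ℚ × ZMod 3

/-- the unit `2` -/
def u : Rˣ where
  val := (2, 2)
  inv := (1 / 2, 2)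
  val_inv := by
    refine Prod.ext ?_ ?_
    · norm_num
    · show (2 : ZMod 3) * 2 = 1
      decide
  inv_val := by
    refine Prod.ext ?_ ?_
    · norm_num
    · show (2 : ZMod 3) * 2 = 1
      decide

/-- the base group -/
@[ext] structure Af where
  /-- translation part -/
  r : R
  /-- exponent of the dilation -/
  k : ℤ

namespace Af

instance : Mul Af := ⟨fun x y => ⟨x.r + ((u ^ x.k : Rˣ) : R) * y.r, x.k + y.k⟩⟩
instance : One Af := ⟨⟨0, 0⟩⟩
instance : Inv Af := ⟨fun x => ⟨-(((u ^ (-x.k) : Rˣ) : R) * x.r), -x.k⟩⟩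

theorem mul_r (x y : Af) : (x * y).r = x.r + ((u ^ x.k : Rˣ) : R) * y.r := rfl
theorem mul_k (x y : Af) : (x * y).k = x.k + y.k := rfl
theorem one_r : (1 : Af).r = 0 := rfl
theorem one_k : (1 : Af).k = 0 := rfl
theorem inv_r (x : Af) : (x⁻¹).r = -(((u ^ (-x.k) : Rˣ) : R) * x.r) := rfl
theorem inv_k (x : Af) : (x⁻¹).k = -x.k := rfl

instance : Group Af where
  mul_assoc x y z := by
    refine Af.ext ?_ ?_
    · simp only [mul_r, mul_k, zpow_add, Units.val_mul]; ring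
    · simp only [mul_k]; ring
  one_mul x := by
    refine Af.ext ?_ ?_
    · simp [mul_r, one_r, one_k]
    · simp [mul_k, one_k]
  mul_one x := by
    refine Af.ext ?_ ?_
    · simp [mul_r, one_r]
    · simp [mul_k, one_k]
  inv_mul_cancel x := by
    refine Af.ext ?_ ?_
    · simp [mul_r, inv_r, one_r, inv_k]
    · simp [mul_k, inv_k, one_k]

/-- the translation by `e` -/
def tr (e : R) : Af := ⟨e, 0⟩

/-- the dilation by `2^k` -/
def di (k : ℤ) : Af := ⟨0, k⟩

theorem tr_mul (e f : R) : tr e * tr f = tr (e + f) := by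
  refine Af.ext ?_ ?_ <;> simp [mul_r, mul_k, tr]

theorem di_mul (k l : ℤ) : di k * di l = di (k + l) := by
  refine Af.ext ?_ ?_ <;> simp [mul_r, mul_k, di]

theorem tr_inv (e : R) : (tr e)⁻¹ = tr (-e) := by
  refine Af.ext ?_ ?_ <;> simp [inv_r, inv_k, tr]

theorem di_inv (k : ℤ) : (di k)⁻¹ = di (-k) := by
  refine Af.ext ?_ ?_ <;> simp [inv_r, inv_k, di]

theorem tr_zero : tr 0 = 1 := rfl
theorem di_zero : di 0 = 1 := rfl

theorem tr_pow (e : R) (n : ℕ) : tr e ^ n = tr (n • e) := by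
  induction n with
  | zero => simp [tr_zero]
  | succ n ih => rw [pow_succ, ih, tr_mul, succ_nsmul]

theorem tr_zpow (e : R) (n : ℤ) : tr e ^ n = tr (n • e) := by
  rcases n with n | n
  · simp [tr_pow]
  · rw [zpow_negSucc, tr_pow, tr_inv, negSucc_zsmul]

theorem di_pow (k : ℤ) (n : ℕ) : di k ^ n = di (n * k) := by
  induction n with
  | zero => simp [di_zero]
  | succ n ih => rw [pow_succ, ih, di_mul]; congr 1; push_cast; ring

theorem di_zpow (k : ℤ) (n : ℤ) : di k ^ n = di (n * k) := by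
  rcases n with n | n
  · simp [di_pow]
  · rw [zpow_negSucc, di_pow, di_inv]; congr 1; rw [Int.negSucc_eq]; push_cast; ring

theorem di_tr (k : ℤ) (e : R) : di k * tr e * (di k)⁻¹ = tr (((u ^ k : Rˣ) : R) * e) := by
  refine Af.ext ?_ ?_ <;> simp [mul_r, mul_k, di, tr, inv_r, inv_k]

theorem conj_tr (x : Af) (e : R) : x * tr e * x⁻¹ = tr (((u ^ x.k : Rˣ) : R) * e) := by
  refine Af.ext ?_ ?_
  · simp only [mul_r, mul_k, tr, inv_r, zpow_add, zpow_neg, zpow_zero, mul_one]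
    have : ((u ^ x.k : Rˣ) : R) * (((u ^ x.k)⁻¹ : Rˣ) : R) = 1 := Units.mul_inv _
    linear_combination (-x.r) * this
  · simp [mul_k, tr, inv_k]

/-- the group of the translations by integers -/
def A : Subgroup Af where
  carrier := {x | x.k = 0 ∧ ∃ n : ℤ, x.r = n}
  mul_mem' := by
    rintro x y ⟨h1, n, h2⟩ ⟨h3, m, h4⟩
    refine ⟨by rw [mul_k, h1, h3, add_zero], n + m, ?_⟩
    rw [mul_r, h1, h2, h4]; simp
  one_mem' := ⟨rfl, 0, by simp [one_r]⟩
  inv_mem' := by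
    rintro x ⟨h1, n, h2⟩
    refine ⟨by rw [inv_k, h1, neg_zero], -n, ?_⟩
    rw [inv_r, h1, h2]; simp

/-- the group of the dilations -/
def B : Subgroup Af where
  carrier := {x | x.r = 0}
  mul_mem' := by
    intro x y h1 h2
    simp only [Set.mem_ofPred_eq] at *
    rw [mul_r, h1, h2]; simp
  one_mem' := rfl
  inv_mem' := by
    intro x h1
    simp only [Set.mem_ofPred_eq] at *
    rw [inv_r, h1]; simp

theorem mem_A (x : Af) : x ∈ A ↔ x.k = 0 ∧ ∃ n : ℤ, x.r = n := Iff.rfl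
theorem mem_B (x : Af) : x ∈ B ↔ x.r = 0 := Iff.rfl

theorem intCast_inj {m n : ℤ} (h : (m : R) = n) : m = n := by
  have := congrArg Prod.fst h
  simpa using this

/-- the homomorphism `B → A` -/
def ψ : B →* A where
  toFun x := ⟨tr (x.1.k : R), rfl, x.1.k, rfl⟩
  map_one' := by
    refine Subtype.ext ?_
    show tr (((1 : Af).k : ℤ) : R) = 1
    rw [one_k, Int.cast_zero, tr_zero]
  map_mul' x y := by
    refine Subtype.ext ?_
    show tr (((x.1 * y.1).k : ℤ) : R) = tr (x.1.k : R) * tr (y.1.k : R)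
    rw [mul_k, Int.cast_add, tr_mul]

theorem ψ_bij : Function.Bijective ψ := by
  constructor
  · intro x y h
    have h1 := congrArg (fun z : A => z.1.r) h
    have h2 : (x.1.k : R) = y.1.k := h1
    refine Subtype.ext (Af.ext ?_ (intCast_inj h2))
    rw [x.2, y.2]
  · rintro ⟨y, h1, n, h2⟩
    refine ⟨⟨di n, rfl⟩, Subtype.ext ?_⟩
    show tr ((n : ℤ) : R) = y
    exact Af.ext h2.symm h1.symm

/-- the isomorphism `A → B` -/
noncomputable def φ : A ≃* B := (MulEquiv.ofBijective ψ ψ_bij).symm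

theorem φ_tr (n : ℤ) : φ ⟨tr (n : R), rfl, n, rfl⟩ = ⟨di n, rfl⟩ := by
  rw [φ, MulEquiv.symm_apply_eq]
  rfl

end Af

open Af

/-- the model of the Baumslag–Gersten group -/
abbrev Γ : Type := HNNExtension Af Af.A Af.B Af.φ

/-- the stable letter -/
noncomputable abbrev tt : Γ := HNNExtension.t

/-- the translations -/
noncomputable def ia (e : R) : Γ := of (tr e)

theorem tt_conj (n : ℤ) : tt * ia (n : R) * tt⁻¹ = of (di n) := by
  have := t_mul_of (φ := Af.φ) ⟨tr (n : R), rfl, n, rfl⟩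
  rw [Af.φ_tr] at this
  rw [ia, this, mul_inv_cancel_right]

theorem ia_zpow (n : ℤ) : (ia 1) ^ n = ia (n : R) := by
  rw [ia, ia, ← map_zpow, tr_zpow]; simp

theorem ia_mul (e f : R) : ia e * ia f = ia (e + f) := by
  rw [ia, ia, ia, ← map_mul, tr_mul]

theorem ia_inv (e : R) : (ia e)⁻¹ = ia (-e) := by
  rw [ia, ia, ← map_inv, tr_inv]

theorem mem_sub_one (x : Af) : x ∈ toSubgroup Af.A Af.B 1 ↔ x.k = 0 ∧ ∃ n : ℤ, x.r = n := Iff.rfl
theorem mem_sub_neg (x : Af) : x ∈ toSubgroup Af.A Af.B (-1) ↔ x.r = 0 := Iff.rfl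

/-- generic elements: not conjugate to an element of one of the associated subgroups -/
def Gen (c : Af) : Prop := ∀ (h : Af) (ε : ℤˣ), h * c * h⁻¹ ∉ toSubgroup Af.A Af.B ε

theorem u_even (j : ℤ) : (((u ^ (2 * j) : Rˣ) : R)).2 = 1 := by
  have h1 : (((u ^ (2 : ℤ) : Rˣ) : R)).2 = 1 := by
    show (2 * 2 : ZMod 3) = 1
    decide
  have h3 : (Units.map (RingHom.snd ℚ (ZMod 3)).toMonoidHom u) ^ (2 : ℤ) = 1 := by
    rw [← map_zpow]
    exact Units.ext h1
  have h2 : Units.map (RingHom.snd ℚ (ZMod 3)).toMonoidHom (u ^ (2 * j)) = 1 := by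
    rw [map_zpow, zpow_mul, h3, one_zpow]
  exact congrArg Units.val h2

theorem gen_of (ρ : R) (j : ℤ) (hj : j ≠ 0) (hρ : ρ.2 ≠ 0) : Gen ⟨ρ, 2 * j⟩ := by
  intro h ε hm
  have hk : (h * ⟨ρ, 2 * j⟩ * h⁻¹ : Af).k = 2 * j := by
    rw [mul_k, mul_k, inv_k]; ring
  have hr : (h * ⟨ρ, 2 * j⟩ * h⁻¹ : Af).r.2 = ((u ^ h.k : Rˣ) : R).2 * ρ.2 := by
    rw [mul_r, mul_r, mul_k, inv_r]
    simp only [Prod.snd_add, Prod.snd_mul, Prod.snd_neg, zpow_add, Units.val_mul, u_even]
    have : ((u ^ h.k : Rˣ) : R).2 * ((u ^ (-h.k) : Rˣ) : R).2 = 1 := by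
      rw [← Prod.snd_mul, ← Units.val_mul, ← zpow_add, add_neg_cancel, zpow_zero]; rfl
    linear_combination (-h.r.2) * this
  rcases Int.units_eq_one_or ε with rfl | rfl
  · have := ((mem_sub_one _).1 hm).1
    rw [hk] at this
    omega
  · have := (mem_sub_neg _).1 hm
    rw [this] at hr
    have h1 : ((u ^ (-h.k) : Rˣ) : R).2 * (((u ^ h.k : Rˣ) : R).2 * ρ.2) = ρ.2 := by
      have : ((u ^ (-h.k) : Rˣ) : R).2 * ((u ^ h.k : Rˣ) : R).2 = 1 := by
        rw [← Prod.snd_mul, ← Units.val_mul, ← zpow_add, neg_add_cancel, zpow_zero]; rfl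
      rw [← mul_assoc, this, one_mul]
    rw [← hr] at h1
    apply hρ
    rw [← h1]
    simp

end Pool.Agent.K6.H89.BG
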