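import Mathlib

/-!
# Binary digits and central binomial coefficients
-/

set_option autoImplicit false

namespace Pool.Agent.K6.H89.BG.Num

/-- sum of the binary digits -/
def s (n : ℕ) : ℕ := (Nat.digits 2 n).sum

theorem s_zero : s 0 = 0 := by simp [s]

theorem s_double (n : ℕ) : s (2 * n) = s n := by
  rcases Nat.eq_zero_or_pos n with rfl | h
  · rfl
  · have := Nat.digits_add 2 (by norm_num) 0 n (by norm_num) (Or.inr h.ne')
    rw [zero_add] at this
    simp [s, this]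

theorem s_succ (n : ℕ) : s (2 * n + 1) = s n + 1 := by
  have := Nat.digits_add 2 (by norm_num) 1 n (by norm_num) (Or.inl (by norm_num))
  rw [add_comm 1] at this
  unfold s
  rw [this, List.sum_cons]; ring

theorem s_add (m : ℕ) : ∀ (a b : ℕ), a < 2 ^ m → s (a + 2 ^ m * b) = s a + s b := by
  induction m with
  | zero => intro a b h; have : a = 0 := by simpa using h
            subst this; simp [s_zero]
  | succ m ih =>
    intro a b h
    obtain ⟨c, hc⟩ : ∃ c, a = 2 * c ∨ a = 2 * c + 1 := ⟨a / 2, by omega⟩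
    have hc2 : c < 2 ^ m := by rw [pow_succ] at h; omega
    rcases hc with rfl | rfl
    · have e : 2 * c + 2 ^ (m + 1) * b = 2 * (c + 2 ^ m * b) := by ring
      rw [e, s_double, ih c b hc2, s_double]
    · have e : 2 * c + 1 + 2 ^ (m + 1) * b = 2 * (c + 2 ^ m * b) + 1 := by ring
      rw [e, s_succ, ih c b hc2, s_succ]; ring

theorem s_compl (w : ℕ) : ∀ z, z < 2 ^ w → s (2 ^ w - 1 - z) + s z = w := by
  induction w with
  | zero => intro z h; have : z = 0 := by simpa using h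
            subst this; simp [s_zero]
  | succ w ih =>
    intro z h
    obtain ⟨c, hc⟩ : ∃ c, z = 2 * c ∨ z = 2 * c + 1 := ⟨z / 2, by omega⟩
    have hc2 : c < 2 ^ w := by rw [pow_succ] at h; omega
    have := ih c hc2
    rcases hc with rfl | rfl
    · have e : 2 ^ (w + 1) - 1 - 2 * c = 2 * (2 ^ w - 1 - c) + 1 := by rw [pow_succ]; omega
      rw [e, s_succ, s_double]; omega
    · have e : 2 ^ (w + 1) - 1 - (2 * c + 1) = 2 * (2 ^ w - 1 - c) := by rw [pow_succ]; omega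
      rw [e, s_succ, s_double]; omega

/-- the block of a value `z` -/
def blk (w z : ℕ) : ℕ := 2 ^ (2 * w) - 1 - z * (2 ^ w - 1)

theorem mul_le_blk {w z : ℕ} (hz : z ≤ 2 ^ w) : z * (2 ^ w - 1) ≤ 2 ^ (2 * w) - 1 := by
  have h1 : 2 ^ (2 * w) = 2 ^ w * 2 ^ w := by rw [two_mul, pow_add]
  have h2 : 1 ≤ 2 ^ w := Nat.one_le_two_pow
  obtain ⟨y, hy⟩ : ∃ y, 2 ^ w = y + 1 := ⟨2 ^ w - 1, by omega⟩
  rw [hy] at hz
  rw [h1, hy]
  simp only [Nat.add_sub_cancel]
  have : z * y ≤ (y + 1) * y := Nat.mul_le_mul_right _ hz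
  have e : (y + 1) * (y + 1) = (y + 1) * y + y + 1 := by ring
  omega

theorem blk_lt (w z : ℕ) : blk w z < 2 ^ (2 * w) := by
  have : 0 < 2 ^ (2 * w) := by positivity
  unfold blk; omega

theorem s_blk_zero (w : ℕ) : s (blk w 0) = 2 * w := by
  have := s_compl (2 * w) 0 (by positivity)
  rw [s_zero] at this
  simpa [blk] using this

theorem s_blk {w z : ℕ} (h0 : z ≠ 0) (hz : z ≤ 2 ^ w) : s (blk w z) = w := by
  obtain ⟨y, rfl⟩ : ∃ y, z = y + 1 := ⟨z - 1, by omega⟩
  have h1 : 2 ^ (2 * w) = 2 ^ w * 2 ^ w := by rw [two_mul, pow_add]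
  have h2 : 1 ≤ 2 ^ w := Nat.one_le_two_pow
  have e : blk w (y + 1) = y + 2 ^ w * (2 ^ w - 1 - y) := by
    unfold blk
    rw [h1]
    obtain ⟨q, hq⟩ : ∃ q, 2 ^ w = y + 1 + q := ⟨2 ^ w - (y + 1), by omega⟩
    rw [hq]
    have e1 : y + 1 + q - 1 = y + q := by omega
    have e2 : y + q - y = q := by omega
    rw [e1, e2]
    have e3 : (y + 1 + q) * (y + 1 + q) = (y + (y + 1 + q) * q) + (y + 1) * (y + q) + 1 := by ring
    rw [e3]; omega
  rw [e, s_add w y _ (by omega)]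
  have := s_compl w y (by omega)
  omega

theorem sum_lt (B : ℕ) (δ : ℕ → ℕ) (hδ : ∀ j, δ j < 2 ^ B) (n : ℕ) :
    ∑ j ∈ Finset.range n, δ j * 2 ^ (B * j) < 2 ^ (B * n) := by
  induction n with
  | zero => simp
  | succ n ih =>
    rw [Finset.sum_range_succ]
    have h1 : δ n + 1 ≤ 2 ^ B := hδ n
    have h2 : (δ n + 1) * 2 ^ (B * n) ≤ 2 ^ B * 2 ^ (B * n) := Nat.mul_le_mul_right _ h1
    have e : 2 ^ (B * (n + 1)) = 2 ^ B * 2 ^ (B * n) := by rw [Nat.mul_succ, pow_add]; ring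
    rw [e]
    nlinarith

theorem s_sum (B : ℕ) (δ : ℕ → ℕ) (hδ : ∀ j, δ j < 2 ^ B) (n : ℕ) :
    s (∑ j ∈ Finset.range n, δ j * 2 ^ (B * j)) = ∑ j ∈ Finset.range n, s (δ j) := by
  induction n with
  | zero => simp [s_zero]
  | succ n ih =>
    rw [Finset.sum_range_succ, Finset.sum_range_succ, mul_comm (δ n), s_add _ _ _ (sum_lt B δ hδ n),
      ih]

theorem dvd_central (F M : ℕ) : 2 ^ F ∣ Nat.choose (2 * M) M ↔ F ≤ s M := by
  have h := sub_one_mul_padicValNat_choose_eq_sub_sum_digits (p := 2) (n := 2 * M) (k := M) (by omega)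
  have e : 2 * M - M = M := by omega
  rw [e] at h
  have h2 : (Nat.digits 2 (2 * M)).sum = s M := s_double M
  rw [h2] at h
  have h3 : padicValNat 2 (Nat.choose (2 * M) M) = s M := by
    have : (Nat.digits 2 M).sum = s M := rfl
    rw [this] at h
    omega
  have h4 : Nat.choose (2 * M) M ≠ 0 := (Nat.choose_pos (by omega)).ne'
  rw [padicValNat_dvd_iff_le h4, h3]

/-- the quotient that contains the central binomial coefficient -/
theorem quot (M N A F : ℕ) (hN : 2 * M < N) (hA : (N + 1) * (2 * M + 1) + 2 ≤ A) (hF : F ≤ N)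
    (q : ℤ) (h0 : 0 ≤ (2 : ℤ) ^ (A * (2 * M + 1) - N * M) - q * (2 ^ A - 1 - 2 ^ N))
    (h1 : (2 : ℤ) ^ (A * (2 * M + 1) - N * M) - q * (2 ^ A - 1 - 2 ^ N) < 2 ^ A - 1 - 2 ^ N) :
    (2 : ℤ) ^ F ∣ q ↔ 2 ^ F ∣ Nat.choose (2 * M) M := by
  have hNM : N * M + N ≤ A := by nlinarith
  -- the number `G`
  set G : ℤ := 1 + 2 ^ N with hG
  set D : ℤ := 2 ^ A - 1 - 2 ^ N with hD
  have hG0 : 0 < G := by positivity
  have hGpow : G ^ (2 * M + 1) < D := by
    have e1 : G ≤ 2 ^ (N + 1) := by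
      rw [hG, pow_succ]
      have : (1 : ℤ) ≤ 2 ^ N := one_le_pow₀ (by norm_num)
      linarith
    have e2 : G ^ (2 * M + 1) ≤ 2 ^ ((N + 1) * (2 * M + 1)) := by
      rw [pow_mul]; exact pow_le_pow_left₀ hG0.le e1 _
    have e3 : (2 : ℤ) ^ ((N + 1) * (2 * M + 1) + 2) ≤ 2 ^ A := pow_le_pow_right₀ (by norm_num) hA
    have e4 : (2 : ℤ) ^ N ≤ 2 ^ ((N + 1) * (2 * M + 1)) := pow_le_pow_right₀ (by norm_num) (by nlinarith)
    have e5 : (1 : ℤ) ≤ 2 ^ ((N + 1) * (2 * M + 1)) := one_le_pow₀ (by norm_num)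
    rw [pow_add] at e3
    rw [hD]
    linarith
  -- expansion of `G ^ (2 M)`
  obtain ⟨L, H, hL0, hL1, hexp⟩ : ∃ L H : ℤ, 0 ≤ L ∧ L < 2 ^ (N * M) ∧
      G ^ (2 * M) = L + 2 ^ (N * M) * (Nat.choose (2 * M) M + 2 ^ N * H) := by
    have hb : G ^ (2 * M) = ∑ i ∈ Finset.range (2 * M + 1),
        (2 : ℤ) ^ (N * i) * (Nat.choose (2 * M) i : ℤ) := by
      rw [hG, add_comm, add_pow]
      refine Finset.sum_congr rfl fun i _ => ?_
      rw [one_pow, mul_one, ← pow_mul]
    have e : 2 * M + 1 = M + (M + 1) := by ring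
    rw [e, Finset.sum_range_add, Finset.sum_range_succ'] at hb
    refine ⟨∑ i ∈ Finset.range M, (2 : ℤ) ^ (N * i) * (Nat.choose (2 * M) i : ℤ),
      ∑ i ∈ Finset.range M, (2 : ℤ) ^ (N * i) * (Nat.choose (2 * M) (M + (i + 1)) : ℤ), ?_, ?_, ?_⟩
    · exact Finset.sum_nonneg fun i _ => by positivity
    · have hlt := sum_lt N (fun i => Nat.choose (2 * M) i) (fun j => by
        calc Nat.choose (2 * M) j ≤ 2 ^ (2 * M) := Nat.choose_le_two_pow _ _
          _ < 2 ^ N := Nat.pow_lt_pow_right (by norm_num) hN) M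
      have : (∑ i ∈ Finset.range M, (2 : ℤ) ^ (N * i) * (Nat.choose (2 * M) i : ℤ)) =
          ((∑ i ∈ Finset.range M, Nat.choose (2 * M) i * 2 ^ (N * i) : ℕ) : ℤ) := by
        push_cast
        exact Finset.sum_congr rfl fun i _ => mul_comm _ _
      rw [this]
      exact_mod_cast hlt
    · rw [hb, mul_add ((2 : ℤ) ^ (N * M)), Finset.mul_sum, Finset.mul_sum]
      have e3 : ∑ k ∈ Finset.range M, (2 : ℤ) ^ (N * (M + (k + 1))) *
          (Nat.choose (2 * M) (M + (k + 1)) : ℤ) =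
        ∑ i ∈ Finset.range M, 2 ^ (N * M) *
          (2 ^ N * ((2 : ℤ) ^ (N * i) * (Nat.choose (2 * M) (M + (i + 1)) : ℤ))) := by
        refine Finset.sum_congr rfl fun i _ => ?_
        have : N * (M + (i + 1)) = N * M + N + N * i := by ring
        rw [this, pow_add, pow_add]; ring
      rw [e3]
      simp only [add_zero]
      ring
  -- geometric sum
  obtain ⟨S, hS⟩ : ∃ S : ℤ, ((2 : ℤ) ^ A) ^ (2 * M + 1) = D * (2 ^ A * S + G ^ (2 * M)) +
      G ^ (2 * M + 1) := by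
    have hg := Commute.mul_geom_sum₂ (Commute.all G ((2 : ℤ) ^ A)) (2 * M + 1)
    rw [Finset.sum_range_succ] at hg
    have hdv : (2 : ℤ) ^ A ∣ ∑ i ∈ Finset.range (2 * M), G ^ i * (2 ^ A) ^ (2 * M + 1 - 1 - i) := by
      refine Finset.dvd_sum fun i hi => ?_
      have hi' := Finset.mem_range.1 hi
      exact Dvd.dvd.mul_left (dvd_pow_self _ (by omega)) _
    obtain ⟨S, hS⟩ := hdv
    refine ⟨S, ?_⟩
    rw [hS] at hg
    have e : 2 * M + 1 - 1 - 2 * M = 0 := by omega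
    rw [e, pow_zero, mul_one] at hg
    have hGD : G - 2 ^ A = -D := by rw [hG, hD]; ring
    rw [hGD] at hg
    linarith
  -- conclusion
  set X : ℤ := (2 : ℤ) ^ (A * (2 * M + 1) - N * M) with hX
  have hle : N * M ≤ A * (2 * M + 1) := by nlinarith
  have hX2 : X * 2 ^ (N * M) = ((2 : ℤ) ^ A) ^ (2 * M + 1) := by
    rw [hX, ← pow_add, ← pow_mul]
    congr 1
    omega
  have hApow : (2 : ℤ) ^ A = 2 ^ (N * M) * (2 ^ N * 2 ^ (A - N * M - N)) := by
    rw [← pow_add, ← pow_add]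
    congr 1
    omega
  set Q : ℤ := Nat.choose (2 * M) M + 2 ^ N * (H + 2 ^ (A - N * M - N) * S) with hQ
  have hP : (0 : ℤ) < 2 ^ (N * M) := by positivity
  have hD0 : 0 < D := lt_of_le_of_lt (by positivity) hGpow
  have h3 : X * 2 ^ (N * M) = D * 2 ^ (N * M) * Q + (D * L + G ^ (2 * M + 1)) := by
    rw [hX2, hS, hexp, hQ]
    linear_combination D * S * hApow
  have hqQ : q = Q := by
    have hlow : 0 ≤ (X - Q * D) * 2 ^ (N * M) := by
      have : (X - Q * D) * 2 ^ (N * M) = D * L + G ^ (2 * M + 1) := by linear_combination h3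
      rw [this]; positivity
    have hhigh : (X - Q * D) * 2 ^ (N * M) < D * 2 ^ (N * M) := by
      have : (X - Q * D) * 2 ^ (N * M) = D * L + G ^ (2 * M + 1) := by linear_combination h3
      rw [this]
      have : D * L ≤ D * (2 ^ (N * M) - 1) := mul_le_mul_of_nonneg_left (by linarith) hD0.le
      linarith
    have hl : 0 ≤ X - Q * D := by
      by_contra hneg
      push Not at hneg
      have := mul_neg_of_neg_of_pos hneg hP
      linarith
    have hh : X - Q * D < D := lt_of_mul_lt_mul_right hhigh hP.le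
    have h5 : (q - Q) * D < D := by linarith
    have h6 : -D < (q - Q) * D := by linarith
    have h7 : q - Q < 1 := by
      by_contra hc; push Not at hc
      have : D ≤ (q - Q) * D := by nlinarith
      linarith
    have h8 : -1 < q - Q := by
      by_contra hc; push Not at hc
      have : (q - Q) * D ≤ -D := by nlinarith
      linarith
    omega
  rw [hqQ, hQ]
  have hFd : (2 : ℤ) ^ F ∣ 2 ^ N * (H + 2 ^ (A - N * M - N) * S) :=
    Dvd.dvd.mul_right (pow_dvd_pow _ hF) _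
  rw [Int.dvd_add_left hFd]
  constructor
  · intro h; exact_mod_cast h
  · intro h; exact_mod_cast h

end Pool.Agent.K6.H89.BG.Num
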