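import Pool.Agent.K6.H89.BG.Pol
import Pool.Agent.K6.H89.BG.Num

/-!
# The number `M` that lists the values of a polynomial in a box
-/

set_option autoImplicit false

namespace Pool.Agent.K6.H89.BG

open Pool.Agent.K6.H89.BG.Num

/-- natural-number-valued functions -/
def SN (E : ℕ → ℕ → ℕ) : Prop := Sm (fun n K => (E n K : ℤ))

theorem SN.congr {E H : ℕ → ℕ → ℕ} (hE : SN E) (h : ∀ n K, H n K = E n K) : SN H :=
  Sm.congr hE fun n K => by rw [h]

theorem SN.const {c : ℕ → ℕ} (hc : Primrec c) : SN (fun n _ => c n) := Sm.const (CI.nat hc)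

theorem SN.num (c : ℕ) : SN (fun _ _ => c) := SN.const (Primrec.const c)

theorem SN.add {E H : ℕ → ℕ → ℕ} (hE : SN E) (hH : SN H) : SN (fun n K => E n K + H n K) :=
  (Sm.add _ _ hE hH).congr fun n K => by push_cast; ring

theorem SN.mul {E H : ℕ → ℕ → ℕ} (hE : SN E) (hH : SN H) : SN (fun n K => E n K * H n K) :=
  (Sm.mul hE hH).congr fun n K => by push_cast; ring

theorem SN.pow {E : ℕ → ℕ → ℕ} (hE : SN E) (k : ℕ) : SN (fun n K => E n K ^ k) :=
  (Sm.pow hE k).congr fun n K => by push_cast; ring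

theorem SN.rep {E : ℕ → ℕ → ℕ} (hE : SN E) : Rep (fun n K => (E n K : ℤ)) := Sm.rep hE

theorem SN.exp {E : ℕ → ℕ → ℕ} (hE : SN E) : SN (fun n K => 2 ^ E n K) :=
  (Sm.two_pow hE.rep).congr fun n K => by push_cast; ring

theorem SN.T : SN (fun _ K => 2 ^ K) :=
  (Sm.two_pow Rep.K).congr fun n K => by push_cast; ring

section box

variable {ν : ℕ} (S : Finset (Fin ν →₀ ℕ)) (c : (Fin ν →₀ ℕ) → ℕ → ℤ) (C : ℕ → ℕ)

/-- block length -/
def ww (n K : ℕ) : ℕ := C n * 2 ^ K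

/-- the numbers `y_i` -/
def yy (i : ℕ) (n K : ℕ) : ℕ := 2 ^ (2 * ww C n K * (2 ^ K) ^ i)

theorem SN_ww (hC : Primrec C) : SN (ww C) := (SN.const hC).mul SN.T

theorem SN_yy (hC : Primrec C) (i : ℕ) : SN (yy C i) :=
  (((SN.num 2).mul (SN_ww C hC)).mul (SN.T.pow i)).exp

theorem yy_succ (i n K : ℕ) : yy C (i + 1) n K = yy C i n K ^ 2 ^ K := by
  unfold yy
  rw [← pow_mul 2 (2 * ww C n K * (2 ^ K) ^ i) (2 ^ K), pow_succ (2 ^ K) i]
  congr 1
  ring

/-- position of a point of the box -/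
def pos (K : ℕ) (x : Fin ν → Fin (2 ^ K)) : ℕ := ∑ i, (x i : ℕ) * (2 ^ K) ^ (i : ℕ)

/-- the number `M` -/
def MM (n K : ℕ) : ℕ := ∑ x : Fin ν → Fin (2 ^ K),
  blk (ww C n K) (Qv S c n (fun i => (x i : ℕ))).toNat * 2 ^ (2 * ww C n K * pos K x)

/-- the denominator -/
def Dl (ν d : ℕ) (n K : ℕ) : ℕ := ∏ i : Fin ν, (yy C i n K - 1) ^ (d + 1)

theorem sum_fin (B n : ℕ) (δ : Fin n → ℕ) (hδ : ∀ j, δ j < 2 ^ B) :
    ∑ j, δ j * 2 ^ (B * (j : ℕ)) < 2 ^ (B * n) ∧
      s (∑ j, δ j * 2 ^ (B * (j : ℕ))) = ∑ j, s (δ j) := by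
  classical
  set δ' : ℕ → ℕ := fun j => if h : j < n then δ ⟨j, h⟩ else 0 with hδ'
  have h1 : ∀ j : Fin n, δ' j = δ j := fun j => by simp [hδ']
  have h2 : ∑ j, δ j * 2 ^ (B * (j : ℕ)) = ∑ j ∈ Finset.range n, δ' j * 2 ^ (B * j) := by
    rw [← Fin.sum_univ_eq_sum_range (fun j => δ' j * 2 ^ (B * j))]
    exact Finset.sum_congr rfl fun j _ => by rw [h1]
  have h3 : ∑ j, s (δ j) = ∑ j ∈ Finset.range n, s (δ' j) := by
    rw [← Fin.sum_univ_eq_sum_range (fun j => s (δ' j))]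
    exact Finset.sum_congr rfl fun j _ => by rw [h1]
  have h4 : ∀ j, δ' j < 2 ^ B := by
    intro j
    simp only [hδ']
    split_ifs with h
    · exact hδ _
    · positivity
  rw [h2, h3]
  exact ⟨sum_lt B δ' h4 n, s_sum B δ' h4 n⟩

theorem MM_spec (n K : ℕ) :
    MM S c C n K < 2 ^ (2 * ww C n K * (2 ^ K) ^ ν) ∧
      s (MM S c C n K) = ∑ x : Fin ν → Fin (2 ^ K),
        s (blk (ww C n K) (Qv S c n (fun i => (x i : ℕ))).toNat) := by
  set e := finFunctionFinEquiv (m := 2 ^ K) (n := ν) with he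
  have h := sum_fin (2 * ww C n K) ((2 ^ K) ^ ν)
    (fun j => blk (ww C n K) (Qv S c n (fun i => ((e.symm j) i : ℕ))).toNat)
    (fun j => blk_lt _ _)
  have h1 : MM S c C n K = ∑ j : Fin ((2 ^ K) ^ ν),
      blk (ww C n K) (Qv S c n (fun i => ((e.symm j) i : ℕ))).toNat *
        2 ^ (2 * ww C n K * (j : ℕ)) := by
    unfold MM
    rw [← Equiv.sum_comp e]
    refine Finset.sum_congr rfl fun x _ => ?_
    rw [Equiv.symm_apply_apply]
    congr 2
  have h2 : ∑ x : Fin ν → Fin (2 ^ K),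
        s (blk (ww C n K) (Qv S c n (fun i => (x i : ℕ))).toNat) =
      ∑ j : Fin ((2 ^ K) ^ ν),
        s (blk (ww C n K) (Qv S c n (fun i => ((e.symm j) i : ℕ))).toNat) := by
    rw [← Equiv.sum_comp e]
    refine Finset.sum_congr rfl fun x _ => ?_
    rw [Equiv.symm_apply_apply]
  rw [h1, h2]
  exact h

/-- the threshold -/
def FF (ν : ℕ) (n K : ℕ) : ℕ := ww C n K * (2 ^ K) ^ ν + ww C n K

theorem SN_FF (hC : Primrec C) (ν : ℕ) : SN (FF C ν) :=
  ((SN_ww C hC).mul (SN.T.pow ν)).add (SN_ww C hC)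

theorem zero_iff (hpos : ∀ n x, 0 ≤ Qv S c n x) (hC1 : ∀ n, 1 ≤ C n)
    (hb : ∀ (n K : ℕ) (x : Fin ν → ℕ), (∀ i, x i < 2 ^ K) → Qv S c n x ≤ 2 ^ (C n * 2 ^ K))
    (n K : ℕ) : FF C ν n K ≤ s (MM S c C n K) ↔
      ∃ x : Fin ν → ℕ, (∀ i, x i < 2 ^ K) ∧ Qv S c n x = 0 := by
  have hw : 1 ≤ ww C n K := Nat.mul_pos (hC1 n) (by positivity)
  have hcard : (2 ^ K) ^ ν = (Finset.univ : Finset (Fin ν → Fin (2 ^ K))).card := by simp
  rw [(MM_spec S c C n K).2]
  have hval : ∀ x : Fin ν → Fin (2 ^ K), Qv S c n (fun i => (x i : ℕ)) ≠ 0 →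
      s (blk (ww C n K) (Qv S c n (fun i => (x i : ℕ))).toNat) = ww C n K := by
    intro x hx
    have h0 := hpos n (fun i => (x i : ℕ))
    refine s_blk (by omega) ?_
    have := hb n K (fun i => (x i : ℕ)) (fun i => (x i).2)
    zify
    rw [Int.toNat_of_nonneg h0]
    exact this
  constructor
  · intro h
    by_contra hne
    push Not at hne
    have h2 : ∀ x : Fin ν → Fin (2 ^ K),
        s (blk (ww C n K) (Qv S c n (fun i => (x i : ℕ))).toNat) = ww C n K :=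
      fun x => hval x (hne _ (fun i => (x i).2))
    rw [Finset.sum_congr rfl (fun x _ => h2 x), Finset.sum_const, ← hcard, smul_eq_mul, FF] at h
    have : (2 ^ K) ^ ν * ww C n K = ww C n K * (2 ^ K) ^ ν := mul_comm _ _
    omega
  · rintro ⟨x, hx, h0⟩
    set x' : Fin ν → Fin (2 ^ K) := fun i => ⟨x i, hx i⟩ with hx'
    have h1 : s (blk (ww C n K) (Qv S c n (fun i => (x' i : ℕ))).toNat) = 2 * ww C n K := by
      have : (fun i => (x' i : ℕ)) = x := rfl
      rw [this, h0]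
      exact s_blk_zero _
    have h2 : ∀ y : Fin ν → Fin (2 ^ K),
        ww C n K ≤ s (blk (ww C n K) (Qv S c n (fun i => (y i : ℕ))).toNat) := by
      intro y
      by_cases hy : Qv S c n (fun i => (y i : ℕ)) = 0
      · rw [hy]
        have := s_blk_zero (ww C n K)
        simp only [Int.toNat_zero] at *
        omega
      · rw [hval y hy]
    rw [← Finset.add_sum_erase _ _ (Finset.mem_univ x'), h1]
    have h3 : ((Finset.univ : Finset (Fin ν → Fin (2 ^ K))).erase x').card * ww C n K ≤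
        ∑ y ∈ Finset.univ.erase x', s (blk (ww C n K) (Qv S c n (fun i => (y i : ℕ))).toNat) := by
      rw [← smul_eq_mul, ← Finset.sum_const]
      exact Finset.sum_le_sum fun y _ => h2 y
    rw [Finset.card_erase_of_mem (Finset.mem_univ _), ← hcard, Nat.sub_mul] at h3
    have h4 : 1 * ww C n K ≤ (2 ^ K) ^ ν * ww C n K := Nat.mul_le_mul_right _ (Nat.one_le_pow _ _ (by positivity))
    rw [FF, mul_comm (ww C n K)]
    omega

/-- The number `Δ M` is a sum of powers of two. -/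
theorem SN_U (hc : ∀ m, CI (c m)) (hC : Primrec C) (hpos : ∀ n x, 0 ≤ Qv S c n x)
    (hb : ∀ (n K : ℕ) (x : Fin ν → ℕ), (∀ i, x i < 2 ^ K) → Qv S c n x ≤ 2 ^ (C n * 2 ^ K))
    (d : ℕ) (hd : ∀ m ∈ S, ∀ i, m i ≤ d) :
    SN (fun n K => Dl C ν d n K * MM S c C n K) := by
  -- products of power sums
  have hprod : ∀ m : Fin ν → ℕ, (∀ i, m i ≤ d) →
      Sm (fun n K => (Dl C ν d n K : ℤ) * ∏ i : Fin ν, ∑ x ∈ Finset.range (2 ^ K),
        (x : ℤ) ^ m i * (yy C i n K : ℤ) ^ x) := by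
    intro m hm
    have h1 : ∀ i : Fin ν, Sm (fun n K => ((yy C i n K : ℤ) - 1) ^ (d - m i) *
        (((yy C i n K : ℤ) - 1) ^ (m i + 1) * ∑ x ∈ Finset.range (2 ^ K),
          (x : ℤ) ^ m i * (yy C i n K : ℤ) ^ x)) := by
      intro i
      have hy : Sm (fun n K => (yy C i n K : ℤ)) := SN_yy C hC i
      refine ((hy.sub (Sm.const (CI.const 1))).pow _).mul ?_
      exact Sm.powSum (T := fun _ K => 2 ^ K) hy (SN_yy C hC (i + 1)) SN.T
        (fun n K => by rw [yy_succ]; push_cast; ring) (m i)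
    refine (Sm.prod Finset.univ _ fun i _ => h1 i).congr fun n K => ?_
    unfold Dl
    push_cast
    rw [← Finset.prod_mul_distrib]
    refine Finset.prod_congr rfl fun i _ => ?_
    have h2 : ((yy C i n K - 1 : ℕ) : ℤ) = (yy C i n K : ℤ) - 1 := by
      have : 1 ≤ yy C i n K := Nat.one_le_two_pow
      push_cast [this]; ring
    rw [h2, ← mul_assoc, ← pow_add]
    congr 2
    have := hm i
    omega
  have hsum : Sm (fun n K => ((2 : ℤ) ^ (2 * ww C n K) - 1) *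
      ((Dl C ν d n K : ℤ) * ∏ i : Fin ν, ∑ x ∈ Finset.range (2 ^ K),
        (x : ℤ) ^ (0 : Fin ν → ℕ) i * (yy C i n K : ℤ) ^ x) -
      ((2 : ℤ) ^ (ww C n K) - 1) * ∑ m ∈ S, c m n * ((Dl C ν d n K : ℤ) *
        ∏ i : Fin ν, ∑ x ∈ Finset.range (2 ^ K), (x : ℤ) ^ m i * (yy C i n K : ℤ) ^ x)) := by
    have e1 : Sm (fun n K => (2 : ℤ) ^ (2 * ww C n K)) :=
      Sm.two_pow ((SN.num 2).mul (SN_ww C hC)).rep
    have e2 : Sm (fun n K => (2 : ℤ) ^ (ww C n K)) := Sm.two_pow (SN_ww C hC).rep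
    refine ((e1.sub (Sm.const (CI.const 1))).mul (hprod 0 fun i => Nat.zero_le _)).sub
      ((e2.sub (Sm.const (CI.const 1))).mul (Sm.sum _ _ fun m hm => ?_))
    exact (Sm.const (hc m)).mul (hprod m (hd m hm))
  refine hsum.congr fun n K => ?_
  push_cast
  have hM : (MM S c C n K : ℤ) = ((2 : ℤ) ^ (2 * ww C n K) - 1) *
      (∏ i : Fin ν, ∑ x ∈ Finset.range (2 ^ K),
        (x : ℤ) ^ (0 : Fin ν → ℕ) i * (yy C i n K : ℤ) ^ x) -
      ((2 : ℤ) ^ (ww C n K) - 1) * ∑ m ∈ S, c m n * (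
        ∏ i : Fin ν, ∑ x ∈ Finset.range (2 ^ K), (x : ℤ) ^ m i * (yy C i n K : ℤ) ^ x) := by
    have hps : ∀ m : Fin ν → ℕ, (∏ i : Fin ν, ∑ x ∈ Finset.range (2 ^ K),
        (x : ℤ) ^ m i * (yy C i n K : ℤ) ^ x) =
        ∑ x : Fin ν → Fin (2 ^ K), (∏ i, ((x i : ℕ) : ℤ) ^ m i) *
          2 ^ (2 * ww C n K * pos K x) := by
      intro m
      have h1 : ∀ i : Fin ν, ∑ x ∈ Finset.range (2 ^ K), (x : ℤ) ^ m i * (yy C i n K : ℤ) ^ x =
          ∑ x : Fin (2 ^ K), ((x : ℕ) : ℤ) ^ m i * (yy C i n K : ℤ) ^ (x : ℕ) := fun i =>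
        (Fin.sum_univ_eq_sum_range (fun x => (x : ℤ) ^ m i * (yy C i n K : ℤ) ^ x) _).symm
      rw [Finset.prod_congr rfl fun i _ => h1 i, Finset.prod_univ_sum, Fintype.piFinset_univ]
      refine Finset.sum_congr rfl fun x _ => ?_
      rw [Finset.prod_mul_distrib]
      congr 1
      have h2 : ∀ i : Fin ν, (yy C i n K : ℤ) ^ (x i : ℕ) =
          2 ^ (2 * ww C n K * ((x i : ℕ) * (2 ^ K) ^ (i : ℕ))) := by
        intro i
        unfold yy
        push_cast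
        rw [← pow_mul]
        congr 1
        ring
      rw [Finset.prod_congr rfl fun i _ => h2 i, Finset.prod_pow_eq_pow_sum, ← Finset.mul_sum]
      rfl
    rw [hps]
    simp only [hps]
    unfold MM
    push_cast
    have hblk : ∀ x : Fin ν → Fin (2 ^ K),
        (blk (ww C n K) (Qv S c n (fun i => (x i : ℕ))).toNat : ℤ) =
        (2 ^ (2 * ww C n K) - 1) - Qv S c n (fun i => (x i : ℕ)) * (2 ^ ww C n K - 1) := by
      intro x
      have h0 := hpos n (fun i => (x i : ℕ))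
      have hbx := hb n K (fun i => (x i : ℕ)) (fun i => (x i).2)
      have h1 : (Qv S c n (fun i => (x i : ℕ))).toNat ≤ 2 ^ ww C n K := by
        zify
        rw [Int.toNat_of_nonneg h0]
        exact hbx
      have h2 := mul_le_blk h1
      unfold blk
      have h3 : 1 ≤ 2 ^ (2 * ww C n K) := Nat.one_le_two_pow
      have h4 : 1 ≤ 2 ^ (ww C n K) := Nat.one_le_two_pow
      rw [Nat.cast_sub h2]
      push_cast [h3, h4]
      rw [Int.toNat_of_nonneg h0]
    rw [Finset.sum_congr rfl fun x _ => by rw [hblk x]]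
    generalize ((2 : ℤ) ^ (2 * ww C n K) - 1) = P2
    generalize ((2 : ℤ) ^ (ww C n K) - 1) = P1
    simp only [sub_mul, Finset.sum_sub_distrib]
    congr 1
    · rw [Finset.mul_sum]
      refine Finset.sum_congr rfl fun x _ => ?_
      simp
    · have h5 : ∀ m ∈ S, c m n * ∑ x : Fin ν → Fin (2 ^ K), (∏ i, ((x i : ℕ) : ℤ) ^ m i) *
          2 ^ (2 * ww C n K * pos K x) = ∑ x : Fin ν → Fin (2 ^ K),
          c m n * (∏ i, ((x i : ℕ) : ℤ) ^ m i) * 2 ^ (2 * ww C n K * pos K x) := by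
        intro m _
        rw [Finset.mul_sum]
        exact Finset.sum_congr rfl fun x _ => by ring
      rw [Finset.sum_congr rfl h5, Finset.sum_comm, Finset.mul_sum]
      refine Finset.sum_congr rfl fun x _ => ?_
      rw [← Finset.sum_mul]
      unfold Qv
      ring
  rw [hM]
  have h6 : ∀ m ∈ S, c m n * ((Dl C ν d n K : ℤ) * ∏ i : Fin ν, ∑ x ∈ Finset.range (2 ^ K),
      (x : ℤ) ^ m i * (yy C i n K : ℤ) ^ x) = (Dl C ν d n K : ℤ) * (c m n *
        ∏ i : Fin ν, ∑ x ∈ Finset.range (2 ^ K), (x : ℤ) ^ m i * (yy C i n K : ℤ) ^ x) := by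
    intro m _; ring
  rw [Finset.sum_congr rfl h6, ← Finset.mul_sum]
  ring

end box

end Pool.Agent.K6.H89.BG
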