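import Pool.Agent.K6.H89.BG.Word

/-!
# Functions of the input `n` and of the parameter `K` that are given by words
-/

set_option autoImplicit false

namespace Pool.Agent.K6.H89.BG

/-- computable integer constants -/
def CI (c : ℕ → ℤ) : Prop := ∃ p q : ℕ → ℕ, Primrec p ∧ Primrec q ∧ ∀ n, c n = (p n : ℤ) - q n

theorem CI.const (z : ℤ) : CI (fun _ => z) :=
  ⟨fun _ => z.toNat, fun _ => (-z).toNat, Primrec.const _, Primrec.const _, fun _ => by
    dsimp only; omega⟩

theorem CI.nat {p : ℕ → ℕ} (hp : Primrec p) : CI (fun n => (p n : ℤ)) :=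
  ⟨p, fun _ => 0, hp, Primrec.const _, fun _ => by simp⟩

theorem CI.add {c d : ℕ → ℤ} (hc : CI c) (hd : CI d) : CI (fun n => c n + d n) := by
  obtain ⟨p, q, hp, hq, h⟩ := hc
  obtain ⟨p', q', hp', hq', h'⟩ := hd
  exact ⟨fun n => p n + p' n, fun n => q n + q' n, Primrec.nat_add.comp hp hp',
    Primrec.nat_add.comp hq hq', fun n => by dsimp only; rw [h, h']; push_cast; ring⟩

theorem CI.mul {c d : ℕ → ℤ} (hc : CI c) (hd : CI d) : CI (fun n => c n * d n) := by
  obtain ⟨p, q, hp, hq, h⟩ := hc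
  obtain ⟨p', q', hp', hq', h'⟩ := hd
  refine ⟨fun n => p n * p' n + q n * q' n, fun n => p n * q' n + q n * p' n, ?_, ?_,
    fun n => by dsimp only; rw [h, h']; push_cast; ring⟩
  · exact Primrec.nat_add.comp (Primrec.nat_mul.comp hp hp') (Primrec.nat_mul.comp hq hq')
  · exact Primrec.nat_add.comp (Primrec.nat_mul.comp hp hq') (Primrec.nat_mul.comp hq hp')

theorem CI.neg {c : ℕ → ℤ} (hc : CI c) : CI (fun n => -c n) := by
  obtain ⟨p, q, hp, hq, h⟩ := hc
  exact ⟨q, p, hq, hp, fun n => by dsimp only; rw [h]; ring⟩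

/-- a family of words: primitive recursive, of bounded weight -/
def WF (w : ℕ → W) : Prop := Primrec w ∧ ∃ C, ∀ n, wt (w n) ≤ C

theorem WF.const (v : W) : WF (fun _ => v) := ⟨Primrec.const _, wt v, fun _ => le_rfl⟩

theorem WF.append {v w : ℕ → W} (hv : WF v) (hw : WF w) : WF (fun n => v n ++ w n) := by
  obtain ⟨h1, C, h2⟩ := hv
  obtain ⟨h3, D, h4⟩ := hw
  exact ⟨Primrec.list_append.comp h1 h3, C + D, fun n => by
    rw [wt_append]; exact Nat.add_le_add (h2 n) (h4 n)⟩

theorem WF.iv {w : ℕ → W} (hw : WF w) : WF (fun n => iv (w n)) := by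
  obtain ⟨h3, D, h4⟩ := hw
  refine ⟨?_, D, fun n => by rw [wt_iv]; exact h4 n⟩
  refine Primrec.list_reverse.comp (Primrec.list_map h3 ?_)
  exact (Primrec.pair (Primrec.fst.comp Primrec.snd)
    (Primrec.not.comp (Primrec.snd.comp Primrec.snd))).to₂

theorem WF.cj {v w : ℕ → W} (hv : WF v) (hw : WF w) : WF (fun n => cj (v n) (w n)) :=
  (hv.append hw).append hv.iv

theorem WF.cm {v w : ℕ → W} (hv : WF v) (hw : WF w) : WF (fun n => cm (v n) (w n)) :=
  ((hv.append hw).append hv.iv).append hw.iv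

theorem WF.shl {v w : ℕ → W} (hv : WF v) (hw : WF w) : WF (fun n => shl (v n) (w n)) :=
  ((WF.const lt).cj hw).cj hv

theorem WF.test {v : ℕ → W} (hv : WF v) : WF (fun n => test (v n)) :=
  ((WF.const la).shl hv).cm (WF.const la)

theorem WF.rep (k : ℕ) {v : ℕ → W} (hv : WF v) : WF (fun n => rep k (v n)) := by
  induction k with
  | zero => exact WF.const _
  | succ k ih =>
    have := hv.append ih
    simpa [BG.rep, List.replicate_succ] using this

/-- the power `a ^ (p n)` or `a ^ (-p n)` -/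
def pw (b : Bool) (k : ℕ) : W := (List.range k).map (fun _ => (some 0, b))

theorem pw_eq (b : Bool) (k : ℕ) : pw b k = List.replicate k (some 0, b) := by
  simp [pw, List.map_const']

theorem wf_pw (b : Bool) {p : ℕ → ℕ} (hp : Primrec p) : WF (fun n => pw b (p n)) := by
  refine ⟨Primrec.list_map (Primrec.list_range.comp hp) (Primrec.const _).to₂, 0, fun n => ?_⟩
  dsimp only
  rw [pw_eq, wt]
  simp [List.countP_replicate]

theorem ev_pw {G : Type} [Group G] (f : Option (Fin 2) → G) (b : Bool) (k : ℕ) :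
    ev f (pw b k) = if b = true then f (some 0) ^ k else ((f (some 0))⁻¹) ^ k := by
  rw [pw_eq]
  cases b <;> simp [ev]

/-- The group elements `a, t, x` satisfy the relation and `x a x⁻¹ = a^K`. -/
def Mod {G : Type} [Group G] (f : Option (Fin 2) → G) (K : ℕ) : Prop :=
  Rel (f (some 0)) (f (some 1)) ∧ f none * f (some 0) * (f none)⁻¹ = f (some 0) ^ K

/-- the functions given by words -/
def Rep (F : ℕ → ℕ → ℤ) : Prop := ∃ w : ℕ → W, WF w ∧
  ∀ (G : Type) [Group G] (f : Option (Fin 2) → G) (K : ℕ), Mod f K →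
    ∀ n, ev f (w n) = f (some 0) ^ (F n K)

theorem Rep.congr {F H : ℕ → ℕ → ℤ} (hF : Rep F) (h : ∀ n K, H n K = F n K) : Rep H := by
  have : H = F := funext fun n => funext fun K => h n K
  rwa [this]

theorem Rep.const {c : ℕ → ℤ} (hc : CI c) : Rep (fun n _ => c n) := by
  obtain ⟨p, q, hp, hq, h⟩ := hc
  refine ⟨fun n => pw true (p n) ++ pw false (q n), (wf_pw true hp).append (wf_pw false hq), ?_⟩
  intro G _ f K _ n
  dsimp only
  rw [ev_append, ev_pw, ev_pw, h, zpow_sub]
  simp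

theorem Rep.K : Rep (fun _ K => K) := by
  refine ⟨fun _ => Ka, WF.const _, ?_⟩
  intro G _ f K h n
  rw [Ka, ev_cj, ev_lx, ev_la, h.2, zpow_natCast]

theorem Rep.add {F H : ℕ → ℕ → ℤ} (hF : Rep F) (hH : Rep H) : Rep (fun n K => F n K + H n K) := by
  obtain ⟨v, hv, h1⟩ := hF
  obtain ⟨w, hw, h2⟩ := hH
  exact ⟨fun n => v n ++ w n, hv.append hw, fun G _ f K hf n => by
    rw [ev_append, h1 G f K hf, h2 G f K hf, zpow_add]⟩

theorem Rep.neg {F : ℕ → ℕ → ℤ} (hF : Rep F) : Rep (fun n K => -F n K) := by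
  obtain ⟨v, hv, h1⟩ := hF
  exact ⟨fun n => iv (v n), hv.iv, fun G _ f K hf n => by
    rw [ev_iv, h1 G f K hf, zpow_neg]⟩

theorem Rep.shl {F H : ℕ → ℕ → ℤ} (hF : Rep F) (hH : Rep H) (h0 : ∀ n K, 0 ≤ H n K) :
    Rep (fun n K => F n K * 2 ^ (H n K).toNat) := by
  obtain ⟨v, hv, h1⟩ := hF
  obtain ⟨w, hw, h2⟩ := hH
  refine ⟨fun n => BG.shl (v n) (w n), hv.shl hw, fun G _ f K hf n => ?_⟩
  rw [ev_shl, h1 G f K hf, h2 G f K hf, hf.1.shl _ _ (h0 n K)]

/-- finite sums of constants times powers of two, the exponents being given by words -/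
inductive Sm : (ℕ → ℕ → ℤ) → Prop
  | zero : Sm (fun _ _ => 0)
  | term (c : ℕ → ℤ) (H : ℕ → ℕ → ℤ) : CI c → Rep H → (∀ n K, 0 ≤ H n K) →
      Sm (fun n K => c n * 2 ^ (H n K).toNat)
  | add (F H : ℕ → ℕ → ℤ) : Sm F → Sm H → Sm (fun n K => F n K + H n K)

theorem Sm.congr {F H : ℕ → ℕ → ℤ} (hF : Sm F) (h : ∀ n K, H n K = F n K) : Sm H := by
  have : H = F := funext fun n => funext fun K => h n K
  rwa [this]

theorem Sm.rep {F : ℕ → ℕ → ℤ} (hF : Sm F) : Rep F := by
  induction hF with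
  | zero => exact Rep.const (CI.const 0)
  | term c H hc hH h0 => exact (Rep.const hc).shl hH h0
  | add F H _ _ h1 h2 => exact h1.add h2

theorem Sm.const {c : ℕ → ℤ} (hc : CI c) : Sm (fun n _ => c n) :=
  (Sm.term c (fun _ _ => 0) hc (Rep.const (CI.const 0)) (fun _ _ => le_rfl)).congr
    (fun n K => by simp)

theorem Sm.mul_term {F : ℕ → ℕ → ℤ} (hF : Sm F) (c : ℕ → ℤ) (H : ℕ → ℕ → ℤ) (hc : CI c)
    (hH : Rep H) (h0 : ∀ n K, 0 ≤ H n K) : Sm (fun n K => F n K * (c n * 2 ^ (H n K).toNat)) := by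
  induction hF with
  | zero => exact Sm.zero.congr (fun n K => by simp)
  | term d L hd hL h1 =>
    refine (Sm.term _ _ (hd.mul hc) (hL.add hH) (fun n K => add_nonneg (h1 n K) (h0 n K))).congr
      (fun n K => ?_)
    rw [Int.toNat_add (h1 n K) (h0 n K), pow_add]
    ring
  | add F L _ _ h1 h2 => exact (Sm.add _ _ h1 h2).congr (fun n K => by ring)

theorem Sm.mul {F H : ℕ → ℕ → ℤ} (hF : Sm F) (hH : Sm H) : Sm (fun n K => F n K * H n K) := by
  induction hH with
  | zero => exact Sm.zero.congr (fun n K => by simp)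
  | term d L hd hL h1 => exact hF.mul_term d L hd hL h1
  | add A L _ _ h1 h2 => exact (Sm.add _ _ h1 h2).congr (fun n K => by ring)

theorem Sm.neg {F : ℕ → ℕ → ℤ} (hF : Sm F) : Sm (fun n K => -F n K) :=
  ((Sm.const (CI.const (-1))).mul hF).congr (fun n K => by ring)

theorem Sm.sub {F H : ℕ → ℕ → ℤ} (hF : Sm F) (hH : Sm H) : Sm (fun n K => F n K - H n K) :=
  (Sm.add _ _ hF hH.neg).congr (fun n K => by ring)

theorem Sm.pow {F : ℕ → ℕ → ℤ} (hF : Sm F) (k : ℕ) : Sm (fun n K => F n K ^ k) := by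
  induction k with
  | zero => exact (Sm.const (CI.const 1)).congr (fun n K => by simp)
  | succ k ih => exact (ih.mul hF).congr (fun n K => by rw [pow_succ])

theorem Sm.sum {ι : Type} (S : Finset ι) (F : ι → ℕ → ℕ → ℤ) (h : ∀ i ∈ S, Sm (F i)) :
    Sm (fun n K => ∑ i ∈ S, F i n K) := by
  classical
  induction S using Finset.induction_on with
  | empty => exact Sm.zero.congr (fun n K => by simp)
  | insert a S ha ih =>
    refine (Sm.add _ _ (h a (Finset.mem_insert_self _ _))
      (ih fun i hi => h i (Finset.mem_insert_of_mem hi))).congr (fun n K => ?_)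
    rw [Finset.sum_insert ha]

theorem Sm.prod {ι : Type} (S : Finset ι) (F : ι → ℕ → ℕ → ℤ) (h : ∀ i ∈ S, Sm (F i)) :
    Sm (fun n K => ∏ i ∈ S, F i n K) := by
  classical
  induction S using Finset.induction_on with
  | empty => exact (Sm.const (CI.const 1)).congr (fun n K => by simp)
  | insert a S ha ih =>
    refine ((h a (Finset.mem_insert_self _ _)).mul
      (ih fun i hi => h i (Finset.mem_insert_of_mem hi))).congr (fun n K => ?_)
    rw [Finset.prod_insert ha]

/-- powers of two -/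
theorem Sm.two_pow {E : ℕ → ℕ → ℕ} (hE : Rep (fun n K => (E n K : ℤ))) :
    Sm (fun n K => 2 ^ (E n K)) :=
  (Sm.term (fun _ => 1) _ (CI.const 1) hE (fun n K => Int.natCast_nonneg _)).congr
    (fun n K => by simp)

/-- power sums -/
theorem Sm.powSum {y Y : ℕ → ℕ → ℤ} {T : ℕ → ℕ → ℕ} (hy : Sm y) (hY : Sm Y)
    (hT : Sm (fun n K => (T n K : ℤ))) (hyY : ∀ n K, Y n K = y n K ^ T n K) (j : ℕ) :
    Sm (fun n K => (y n K - 1) ^ (j + 1) *
      ∑ x ∈ Finset.range (T n K), (x : ℤ) ^ j * y n K ^ x) := by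
  induction j using Nat.strong_induction_on with
  | _ j ih =>
    have key : ∀ (z : ℤ) (t : ℕ), (z - 1) * ∑ x ∈ Finset.range t, (x : ℤ) ^ j * z ^ x =
        ((t : ℤ) - 1) ^ j * z ^ t - (-1) ^ j +
          ∑ i ∈ Finset.range j, ((Nat.choose j i : ℤ) * (-1) ^ (j - i)) *
            ∑ x ∈ Finset.range t, (x : ℤ) ^ i * z ^ x := by
      intro z t
      have h1 : ∑ i ∈ Finset.range j, ((Nat.choose j i : ℤ) * (-1) ^ (j - i)) *
            ∑ x ∈ Finset.range t, (x : ℤ) ^ i * z ^ x =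
          ∑ x ∈ Finset.range t, (((x : ℤ) - 1) ^ j - (x : ℤ) ^ j) * z ^ x := by
        simp only [Finset.mul_sum]
        rw [Finset.sum_comm]
        refine Finset.sum_congr rfl fun x _ => ?_
        have h2 : ((x : ℤ) - 1) ^ j = ∑ i ∈ Finset.range (j + 1),
            (x : ℤ) ^ i * (-1) ^ (j - i) * (Nat.choose j i : ℤ) := by
          rw [sub_eq_add_neg, add_pow]
        rw [h2, Finset.sum_range_succ]
        simp only [Nat.sub_self, pow_zero, mul_one, Nat.choose_self, Nat.cast_one]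
        rw [add_sub_cancel_right, Finset.sum_mul]
        refine Finset.sum_congr rfl fun i _ => by ring
      rw [h1]
      clear h1
      induction t with
      | zero => simp
      | succ t iht =>
        rw [Finset.sum_range_succ, Finset.sum_range_succ, mul_add, iht]
        push_cast
        ring
    have h3 : Sm (fun n K => (y n K - 1) ^ j * (((T n K : ℤ) - 1) ^ j * Y n K - (-1) ^ j) +
        ∑ i ∈ Finset.range j, ((Nat.choose j i : ℤ) * (-1) ^ (j - i)) *
          ((y n K - 1) ^ (j - i - 1) * ((y n K - 1) ^ (i + 1) *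
            ∑ x ∈ Finset.range (T n K), (x : ℤ) ^ i * y n K ^ x))) := by
      have hy1 : Sm (fun n K => y n K - 1) := hy.sub (Sm.const (CI.const 1))
      refine Sm.add _ _ ((hy1.pow j).mul ((((hT.sub (Sm.const (CI.const 1))).pow j).mul hY).sub
        (Sm.const (CI.const _)))) (Sm.sum _ _ fun i hi => ?_)
      exact (Sm.const (CI.const _)).mul ((hy1.pow _).mul (ih i (Finset.mem_range.1 hi)))
    refine h3.congr fun n K => ?_
    rw [pow_succ, mul_assoc, key, ← hyY]
    rw [mul_add, Finset.mul_sum]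
    congr 1
    refine Finset.sum_congr rfl fun i hi => ?_
    have hi' := Finset.mem_range.1 hi
    have e : (y n K - 1) ^ j = (y n K - 1) ^ (j - i - 1) * (y n K - 1) ^ (i + 1) := by
      rw [← pow_add]; congr 1; omega
    rw [e]; ring

end Pool.Agent.K6.H89.BG
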