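import Pool.Agent.K6.H89.BG.Box

/-!
# The numerical criterion
-/

set_option autoImplicit false

namespace Pool.Agent.K6.H89.BG

open Pool.Agent.K6.H89.BG.Num

/-- The data of the criterion: functions `X, A, N, F` of `n, K` given by words, such that, with
`D = 2^A - 1 - 2^N`, the condition `q = 2^F z`, `0 ≤ X - q D ≤ D - 1` has a solution in `q, z` for some
`K = 2^k` if and only if `n` is in the set. -/
theorem criterion {P : ℕ → Prop} (hP : REPred P) : ∃ X A N F : ℕ → ℕ → ℕ,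
    Rep (fun n K => (X n K : ℤ)) ∧ Rep (fun n K => (A n K : ℤ)) ∧ Rep (fun n K => (N n K : ℤ)) ∧
    Rep (fun n K => (F n K : ℤ)) ∧
    Rep (fun n K => (2 : ℤ) ^ A n K - 1 - 2 ^ N n K - 1) ∧
    (∀ n K, 0 < (2 : ℤ) ^ A n K - 1 - 2 ^ N n K) ∧
    ∀ n, P n ↔ ∃ (k : ℕ) (q z : ℤ), q = z * 2 ^ F n (2 ^ k) ∧
      0 ≤ (X n (2 ^ k) : ℤ) - q * (2 ^ A n (2 ^ k) - 1 - 2 ^ N n (2 ^ k)) ∧
      0 ≤ ((2 : ℤ) ^ A n (2 ^ k) - 1 - 2 ^ N n (2 ^ k) - 1) -
        ((X n (2 ^ k) : ℤ) - q * (2 ^ A n (2 ^ k) - 1 - 2 ^ N n (2 ^ k))) := by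
  classical
  obtain ⟨ν, S, c, hc, hpos, hPQ⟩ := re_poly hP
  obtain ⟨C, hC, hC1, hb⟩ := Q_bound S c hc
  -- the maximal exponent
  set d : ℕ := ∑ m ∈ S, ∑ i, m i with hd
  have hd' : ∀ m ∈ S, ∀ i, m i ≤ d := by
    intro m hm i
    have h1 : m i ≤ ∑ i, m i := Finset.single_le_sum (fun _ _ => Nat.zero_le _) (Finset.mem_univ i)
    have h2 : ∑ i, m i ≤ d := Finset.single_le_sum (f := fun m : Fin ν →₀ ℕ => ∑ i, m i)
      (fun _ _ => Nat.zero_le _) hm
    exact h1.trans h2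
  have hU := SN_U S c C hc hC hpos hb d hd'
  set D0 : ℕ → ℕ → ℕ := Dl C ν d with hD0
  set M : ℕ → ℕ → ℕ := MM S c C with hM
  have hDl : SN D0 := by
    have h1 : ∀ i : Fin ν, Sm (fun n K => ((yy C i n K : ℤ) - 1) ^ (d + 1)) := fun i =>
      (Sm.sub (SN_yy C hC i) (Sm.const (CI.const 1))).pow _
    refine (Sm.prod Finset.univ _ fun i _ => h1 i).congr fun n K => ?_
    rw [hD0]
    unfold Dl
    push_cast
    refine Finset.prod_congr rfl fun i _ => ?_
    have h2 : ((yy C i n K - 1 : ℕ) : ℤ) = (yy C i n K : ℤ) - 1 := by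
      have : 1 ≤ yy C i n K := Nat.one_le_two_pow
      push_cast [this]; ring
    rw [h2]
  have hDpos : ∀ n K, 1 ≤ D0 n K := by
    intro n K
    rw [hD0]
    unfold Dl
    refine Nat.one_le_iff_ne_zero.2 (Finset.prod_ne_zero_iff.2 fun i _ => ?_)
    refine pow_ne_zero _ ?_
    have hw : 1 ≤ ww C n K := Nat.mul_pos (hC1 n) (by positivity)
    have h3 : 1 ≤ 2 * ww C n K * (2 ^ K) ^ (i : ℕ) := Nat.mul_pos (by omega) (by positivity)
    have h4 : 2 ^ 1 ≤ yy C i n K := Nat.pow_le_pow_right (by norm_num) h3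
    omega
  -- the exponents
  set g : ℕ → ℕ → ℕ := fun n K => 2 * ww C n K * (2 ^ K) ^ ν + 1 with hg
  have hgS : SN g := (((SN.num 2).mul (SN_ww C hC)).mul (SN.T.pow ν)).add (SN.num 1)
  set N : ℕ → ℕ → ℕ := fun n K => 2 ^ g n K * D0 n K with hN
  have hNS : SN N := hgS.exp.mul hDl
  set al : ℕ → ℕ → ℕ := fun n K => 2 * g n K + 1 with hal
  have halS : SN al := ((SN.num 2).mul hgS).add (SN.num 1)
  set A : ℕ → ℕ → ℕ := fun n K => 2 ^ al n K * D0 n K with hA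
  have hAS : SN A := halS.exp.mul hDl
  -- inequalities
  have hM1 : ∀ n K, M n K < 2 ^ (2 * ww C n K * (2 ^ K) ^ ν) := fun n K => (MM_spec S c C n K).1
  have hM2 : ∀ n K, 2 * M n K + 2 ≤ 2 ^ g n K := by
    intro n K
    have h1 := hM1 n K
    simp only [hg]
    rw [pow_succ]
    omega
  have hNg : ∀ n K, 2 ^ g n K ≤ N n K := fun n K => Nat.le_mul_of_pos_right _ (hDpos n K)
  have hMN : ∀ n K, 2 * M n K < N n K := fun n K => by
    have h1 := hM2 n K
    have h2 := hNg n K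
    omega
  have hAN : ∀ n K, A n K = 2 * 2 ^ g n K * N n K := by
    intro n K
    simp only [hA, hN, hal]
    rw [pow_succ, mul_comm 2 (g n K), pow_mul]
    ring
  have hAge : ∀ n K, (N n K + 1) * (2 * M n K + 1) + 2 ≤ A n K := by
    intro n K
    rw [hAN]
    have h1 := hM2 n K
    have h2 := hNg n K
    have h3 : 1 ≤ 2 ^ g n K := Nat.one_le_two_pow
    generalize 2 ^ g n K = G at *
    generalize N n K = N' at *
    generalize M n K = M' at *
    have h4 : (N' + 1) * (2 * M' + 1) ≤ (N' + 1) * (G - 1) := Nat.mul_le_mul_left _ (by omega)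
    obtain ⟨G', rfl⟩ : ∃ G', G = G' + 1 := ⟨G - 1, by omega⟩
    simp only [Nat.add_sub_cancel] at h4
    nlinarith
  have hFN : ∀ n K, FF C ν n K ≤ N n K := by
    intro n K
    have h2 := hNg n K
    have h3 : 2 * ww C n K * (2 ^ K) ^ ν + 1 < 2 ^ g n K := Nat.lt_two_pow_self
    have h4 : ww C n K * 1 ≤ ww C n K * (2 ^ K) ^ ν := Nat.mul_le_mul_left _ (Nat.one_le_pow _ _ (by positivity))
    unfold FF
    nlinarith
  -- the exponent of `X`
  set e : ℕ → ℕ → ℕ := fun n K => A n K * (2 * M n K + 1) - N n K * M n K with he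
  have heS : SN e := by
    have h1 : Sm (fun n K => ((2 ^ (al n K + 1) * (D0 n K * M n K) : ℕ) : ℤ) + (A n K : ℤ) -
        ((2 ^ g n K * (D0 n K * M n K) : ℕ) : ℤ)) := by
      refine Sm.sub (Sm.add _ _ ?_ hAS) ?_
      · exact ((halS.add (SN.num 1)).exp).mul hU
      · exact hgS.exp.mul hU
    refine h1.congr fun n K => ?_
    have h2 : N n K * M n K ≤ A n K * (2 * M n K + 1) := by
      rw [hAN]
      have : 1 ≤ 2 ^ g n K := Nat.one_le_two_pow
      have h3 : N n K * M n K ≤ N n K * (2 * M n K + 1) := Nat.mul_le_mul_left _ (by omega)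
      have h4 : N n K * (2 * M n K + 1) ≤ 2 * 2 ^ g n K * N n K * (2 * M n K + 1) := by
        have : N n K ≤ 2 * 2 ^ g n K * N n K := Nat.le_mul_of_pos_left _ (by positivity)
        exact Nat.mul_le_mul_right _ this
      exact h3.trans h4
    simp only [he]
    rw [Nat.cast_sub h2]
    simp only [hA, hN]
    push_cast
    rw [pow_succ]
    ring
  set X : ℕ → ℕ → ℕ := fun n K => 2 ^ e n K with hX
  have hXS : SN X := heS.exp
  have hDS : Sm (fun n K => (2 : ℤ) ^ A n K - 1 - 2 ^ N n K) := by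
    have h1 : Sm (fun n K => (2 : ℤ) ^ A n K) := Sm.two_pow hAS.rep
    have h2 : Sm (fun n K => (2 : ℤ) ^ N n K) := Sm.two_pow hNS.rep
    exact (h1.sub (Sm.const (CI.const 1))).sub h2
  have hDpos2 : ∀ n K, 0 < (2 : ℤ) ^ A n K - 1 - 2 ^ N n K := by
    intro n K
    have h1 := hAge n K
    have h2 : N n K + 2 ≤ A n K := by nlinarith
    have h3 : (2 : ℤ) ^ (N n K + 2) ≤ 2 ^ A n K := pow_le_pow_right₀ (by norm_num) h2
    have h4 : (1 : ℤ) ≤ 2 ^ N n K := one_le_pow₀ (by norm_num)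
    rw [pow_add] at h3
    linarith
  refine ⟨X, A, N, FF C ν, hXS.rep, hAS.rep, hNS.rep, (SN_FF C hC ν).rep,
    (hDS.sub (Sm.const (CI.const 1))).rep, hDpos2, ?_⟩
  -- the equivalence for fixed `K`
  have key : ∀ n K, (∃ q z : ℤ, q = z * 2 ^ FF C ν n K ∧
      0 ≤ (X n K : ℤ) - q * (2 ^ A n K - 1 - 2 ^ N n K) ∧
      0 ≤ ((2 : ℤ) ^ A n K - 1 - 2 ^ N n K - 1) - ((X n K : ℤ) - q * (2 ^ A n K - 1 - 2 ^ N n K))) ↔
      ∃ x : Fin ν → ℕ, (∀ i, x i < 2 ^ K) ∧ Qv S c n x = 0 := by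
    intro n K
    rw [← zero_iff S c C hpos hC1 hb n K, ← dvd_central]
    have hXc : (X n K : ℤ) = (2 : ℤ) ^ (A n K * (2 * M n K + 1) - N n K * M n K) := by
      simp only [hX, he]; push_cast; ring
    constructor
    · rintro ⟨q, z, hq, h0, h1⟩
      rw [hXc] at h0 h1
      refine (quot (M n K) (N n K) (A n K) (FF C ν n K) (hMN n K) (hAge n K) (hFN n K) q h0
        (by linarith)).1 ⟨z, by rw [hq]; ring⟩
    · intro h
      set D : ℤ := 2 ^ A n K - 1 - 2 ^ N n K with hD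
      have hD0' : 0 < D := hDpos2 n K
      have h0 : 0 ≤ (X n K : ℤ) - (X n K : ℤ) / D * D := by
        have := Int.emod_nonneg (X n K : ℤ) hD0'.ne'
        rw [Int.emod_def] at this
        linarith
      have h1 : (X n K : ℤ) - (X n K : ℤ) / D * D < D := by
        have := Int.emod_lt_of_pos (X n K : ℤ) hD0'
        rw [Int.emod_def] at this
        linarith
      have h2 := (quot (M n K) (N n K) (A n K) (FF C ν n K) (hMN n K) (hAge n K) (hFN n K)
        ((X n K : ℤ) / D) (by rw [← hXc]; exact h0) (by rw [← hXc]; exact h1)).2 h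
      obtain ⟨z, hz⟩ := h2
      exact ⟨(X n K : ℤ) / D, z, by rw [hz]; ring, h0, by linarith⟩
  intro n
  rw [hPQ]
  constructor
  · rintro ⟨x, hx⟩
    refine ⟨∑ i, x i, ?_⟩
    refine (key n (2 ^ ∑ i, x i)).2 ⟨x, fun i => ?_, hx⟩
    have h1 : x i ≤ ∑ i, x i := Finset.single_le_sum (fun _ _ => Nat.zero_le _) (Finset.mem_univ i)
    have h2 : ∑ i, x i < 2 ^ ∑ i, x i := Nat.lt_two_pow_self
    have h3 : 2 ^ (∑ i, x i) < 2 ^ 2 ^ ∑ i, x i := Nat.lt_two_pow_self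
    omega
  · rintro ⟨k, h⟩
    obtain ⟨x, -, hx⟩ := (key n (2 ^ k)).1 h
    exact ⟨x, hx⟩

end Pool.Agent.K6.H89.BG
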