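import Pool.Agent.K6.H89.BG.Word

/-!
# Words in the Baumslag–Gersten group that are not trivial
-/

set_option autoImplicit false

namespace Pool.Agent.K6.H89.BG

open HNNExtension HNNExtension.NormalWord Af

section general

variable {G : Type} [Group G] {A B : Subgroup G} {φ : A ≃* B}

theorem len_ev (f : Option (Fin 2) → HNNExtension G A B φ) (M : ℕ)
    (hf : ∀ o, Len φ (if o = some 0 then 0 else M) (f o)) (w : W) : Len φ (M * wt w) (ev f w) := by
  induction w with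
  | nil => exact Len.one φ _
  | cons l w ih =>
    rw [ev_cons]
    have h1 : Len φ (if l.1 = some 0 then 0 else M)
        (if l.2 = true then f l.1 else (f l.1)⁻¹) := by
      split_ifs with h2 h3 <;> first | exact (by simpa [h2] using hf l.1) | exact (by simpa [h2] using (hf l.1).inv)
    refine (h1.mul ih).mono ?_
    unfold wt
    rw [List.countP_cons]
    by_cases h : l.1 = some 0
    · simp [h]
    · simp [h, Nat.mul_add]; omega

theorem Red.pow {h h' : G} {ε δ : ℤˣ} {n : ℕ} {g : HNNExtension G A B φ}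
    (hg : Red φ h ε δ h' n g) (hc : h' * h ∈ toSubgroup A B δ → δ = ε) (k : ℕ) :
    Red φ h ε δ h' (n * (k + 1)) (g ^ (k + 1)) := by
  induction k with
  | zero => simpa using hg
  | succ k ih =>
    have := ih.append hg hc
    rw [← pow_succ] at this
    have e : n * (k + 1 + 1) = n * (k + 1) + n := by ring
    rw [e]
    exact this

end general

/-- the element `c` -/
def cc : Af := ⟨(1, 1), 2⟩

theorem Gen.inv {c : Af} (hc : Gen c) : Gen c⁻¹ := by
  intro h ε hm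
  apply hc h ε
  have e : h * c * h⁻¹ = (h * c⁻¹ * h⁻¹)⁻¹ := by group
  rw [e]
  exact Subgroup.inv_mem _ hm

theorem gen_cc : Gen cc := gen_of (1, 1) 1 (by norm_num) (by show (1 : ZMod 3) ≠ 0; decide)

theorem cc_sq : cc * cc = ⟨(5, 2), 2 * 2⟩ := by
  refine Af.ext ?_ ?_
  · rw [mul_r]
    refine Prod.ext ?_ ?_
    · show (1 : ℚ) + (((u ^ (2 : ℤ) : Rˣ) : R)).1 * 1 = 5
      have : (((u ^ (2 : ℤ) : Rˣ) : R)).1 = 4 := by
        have h : u ^ (2 : ℤ) = u * u := by rw [zpow_ofNat, pow_two]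
        rw [h]
        show (2 * 2 : ℚ) = 4
        norm_num
      rw [this]; norm_num
    · show (1 : ZMod 3) + (((u ^ (2 : ℤ) : Rˣ) : R)).2 * 1 = 2
      have := u_even 1
      rw [mul_one] at this
      rw [this]; decide
  · rw [mul_k]; rfl

theorem gen_cc2 : Gen (cc * cc) := by
  rw [cc_sq]
  exact gen_of (5, 2) 2 (by norm_num) (by show (2 : ZMod 3) ≠ 0; decide)

theorem Gen.notin {c : Af} (hc : Gen c) (h : Af) (ε : ℤˣ) : h⁻¹ * (c * h) ∉ toSubgroup Af.A Af.B ε := by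
  have := hc h⁻¹ ε
  rwa [inv_inv, mul_assoc] at this

/-- joining with a generic element -/
theorem glue {h : Af} {ε : ℤˣ} {n n' : ℕ} {g g' : Γ} (hg : Red Af.φ h ε (-ε) h⁻¹ n g)
    (hg' : Red Af.φ h ε (-ε) h⁻¹ n' g') {c : Af} (hc : Gen c) :
    Red Af.φ h ε (-ε) h⁻¹ (n + n') (g * (of c * g')) :=
  hg.append (hg'.left c) (fun hm => absurd hm (hc.notin h (-ε)))

theorem red_conj {h h' : Af} {ε δ : ℤˣ} {m : ℕ} {x : Γ} (hx : Red Af.φ h ε δ h' m x) {c : Af}
    (hc : Gen c) : Red Af.φ h ε (-ε) h⁻¹ (m + m) (x * (of c * x⁻¹)) :=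
  hx.append (hx.inv.left c) (fun hm => absurd hm (by
    have := hc h' δ
    rwa [mul_assoc] at this))

theorem om_id {G : Type} [Group G] (x p : G) :
    x * p * x⁻¹ * p * (x * p * x⁻¹)⁻¹ * p⁻¹ *
      (x * p * x⁻¹ * (p * p) * (x * p * x⁻¹)⁻¹ * (p * p)⁻¹) *
      (x * p * x⁻¹ * p * (x * p * x⁻¹)⁻¹ * p⁻¹)⁻¹ *
      (x * p * x⁻¹ * (p * p) * (x * p * x⁻¹)⁻¹ * (p * p)⁻¹)⁻¹ =
    x * (p * x⁻¹) * (p * (x * (p⁻¹ * x⁻¹) * (p⁻¹ * (x * (p * x⁻¹) * ((p * p) * (x * (p⁻¹ * x⁻¹) * (p⁻¹ * (x * (p * x⁻¹) * (p⁻¹ * (x * (p⁻¹ * x⁻¹) * ((p * p) * (x * (p * x⁻¹) * ((p * p)⁻¹ * (x * (p⁻¹ * x⁻¹))))))))))))))) := by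
  simp only [mul_assoc, mul_inv_rev, inv_inv, inv_mul_cancel_left, mul_inv_cancel_left]

theorem red_Om {h h' : Af} {ε δ : ℤˣ} {m : ℕ} {x : Γ} (hx : Red Af.φ h ε δ h' m x)
    {f : Option (Fin 2) → Γ} (hc : ev f lc = of cc) (hf : f none = x) :
    Red Af.φ h ε (-ε) h⁻¹ (16 * m) (ev f Om) := by
  have P := red_conj hx gen_cc
  have P' := red_conj hx gen_cc.inv
  have h1 := glue P' P gen_cc2.inv
  have h2 := glue P' (glue P h1 gen_cc2) (gen_cc.inv)
  -- P' c⁻² P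
  have t1 := glue P P' (gen_cc2.inv)
  have t2 := glue P' t1 gen_cc2
  have t3 := glue P t2 gen_cc.inv
  have t4 := glue P' t3 gen_cc.inv
  have t5 := glue P t4 gen_cc2
  have t6 := glue P' t5 gen_cc.inv
  have t7 := glue P t6 gen_cc
  have e : m + m + (m + m + (m + m + (m + m + (m + m + (m + m + (m + m + (m + m))))))) = 16 * m := by
    ring
  rw [e] at t7
  refine t7.congr ?_
  simp only [Om, ev_cm, ev_cj, ev_append, hc, ev_lx, hf, map_mul, map_inv]
  exact om_id x (of cc)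

theorem Om_base {f : Option (Fin 2) → Γ} (hc : ev f lc = of cc) {y : Af} (hf : f none = of y) :
    ev f Om = 1 := by
  simp only [Om, ev_cm, ev_cj, ev_append, hc, ev_lx, hf, ← map_mul, ← map_inv]
  have key : ∀ z w : Af, ∃ e : R, z * w * z⁻¹ * w⁻¹ = tr e := by
    intro z w
    refine ⟨(z * w * z⁻¹ * w⁻¹).r, Af.ext rfl ?_⟩
    simp only [mul_k, inv_k, tr]; ring
  obtain ⟨e1, h1⟩ := key (y * cc * y⁻¹) cc
  obtain ⟨e2, h2⟩ := key (y * cc * y⁻¹) (cc * cc)
  rw [h1, h2, tr_inv, tr_inv, tr_mul, tr_mul, tr_mul]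
  have : e1 + e2 + -e1 + -e2 = 0 := by ring
  rw [this, tr_zero, map_one]

theorem one_not_B : tr (1 : R) ∉ toSubgroup Af.A Af.B (-1) := by
  intro h
  have := (mem_sub_neg _).1 h
  have h2 := congrArg Prod.fst this
  simp [tr] at h2

theorem neg_one_not_B : (tr (1 : R))⁻¹ ∉ toSubgroup Af.A Af.B (-1) := by
  rw [Subgroup.inv_mem_iff]; exact one_not_B

theorem tr_not_A {e : R} (he : ∀ z : ℤ, e ≠ z) : tr e ∉ toSubgroup Af.A Af.B 1 := by
  intro h
  obtain ⟨-, n, h2⟩ := (mem_sub_one _).1 h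
  exact he n h2

/-- the test is nontrivial for non-integers -/
theorem red_test {e : R} (he : ∀ z : ℤ, e ≠ z) {f : Option (Fin 2) → Γ} (h0 : f (some 0) = ia 1)
    (h1 : f (some 1) = tt) {E : W} (hE : ev f E = ia e) :
    Red Af.φ 1 1 (-1) (tr (1 : R))⁻¹ 8 (ev f (test E)) := by
  have s1 : Red Af.φ 1 1 (-1) 1 2 (tt * ia e * tt⁻¹) := by
    have h2 := (Red.single (φ := Af.φ) 1 (tr e) 1).append (Red.single (φ := Af.φ) 1 1 (-1))
      (by rw [mul_one]; exact fun h => absurd h (tr_not_A he))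
    exact h2.congr (by simp [ia, mul_assoc])
  have s2 : Red Af.φ 1 1 (-1) 1 2 (tt * ia e * tt⁻¹)⁻¹ := by
    have := s1.inv
    rwa [inv_one, neg_neg] at this
  have gl : ∀ {n n' : ℕ} {g g' : Γ}, Red Af.φ 1 1 (-1) 1 n g → Red Af.φ 1 1 (-1) 1 n' g' →
      ∀ c : Af, c ∉ toSubgroup Af.A Af.B (-1) → Red Af.φ 1 1 (-1) 1 (n + n') (g * (of c * g')) := by
    intro n n' g g' hg hg' c hc
    have := hg.append (hg'.left c) (by rw [mul_one, one_mul]; exact fun h => absurd h hc)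
    exact this
  have h2 := gl s1 (gl s2 (gl s1 s2 _ neg_one_not_B) _ one_not_B) _ one_not_B
  have h3 := h2.right (tr (1 : R))⁻¹
  rw [one_mul] at h3
  refine h3.congr ?_
  simp only [test, ev_cm, ev_shl, ev_la, h0, h1, hE]
  rw [ia, map_inv, ia]
  group

theorem test_pow {e : R} (he : ∀ z : ℤ, e ≠ z) {f : Option (Fin 2) → Γ} (h0 : f (some 0) = ia 1)
    (h1 : f (some 1) = tt) {y : Af} (hx : f none = of y) {E : W} (hE : ev f E = ia e) (n : ℕ) (V : W)
    (hV : wt V < 8 * n) : ev f (rep n (test E) ++ V) ≠ 1 := by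
  intro h
  obtain ⟨k, rfl⟩ : ∃ k, n = k + 1 := ⟨n - 1, by omega⟩
  rw [ev_append, ev_rep] at h
  have h2 := (red_test he h0 h1 hE).pow (by
    rw [mul_one]; exact fun h => absurd h neg_one_not_B) k
  have h3 : Len Af.φ (1 * wt V) (ev f V) := by
    refine len_ev f 1 ?_ V
    rintro (_ | o)
    · simp only [reduceCtorEq, if_false, hx]; exact Len.of_ _ _ _
    · fin_cases o
      · simp only [Fin.zero_eta, if_true, h0]; exact Len.of_ _ _ _
      · simp only [Fin.mk_one, Option.some.injEq, Fin.reduceEq, if_false, h1]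
        exact Len.t _
  have h4 : ev f (test E) ^ (k + 1) = (ev f V)⁻¹ := eq_inv_of_mul_eq_one_left h
  rw [h4] at h2
  exact h2.not_len (by omega) h3.inv

theorem outside {f : Option (Fin 2) → Γ} (h0 : f (some 0) = ia 1) (h1 : f (some 1) = tt)
    (hc : ev f lc = of cc) (hx : ∀ y, f none ≠ of y) (n : ℕ) (V : W) (hV : wt V < 16 * n) :
    ev f (rep n (Om ++ lc) ++ rep n (iv lc) ++ V) ≠ 1 := by
  intro h
  obtain ⟨k, rfl⟩ : ∃ k, n = k + 1 := ⟨n - 1, by omega⟩
  rcases of_or_red (f none) with ⟨y, hy⟩ | ⟨a, ε, δ, b, m, hr⟩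
  · exact hx y hy
  have hm := hr.pos
  have h2 := ((red_Om hr hc rfl).right cc).pow (by
    rw [mul_assoc]; exact fun h => absurd h (gen_cc.notin a _)) k
  have h3 : Len Af.φ (m * wt V) (ev f V) := by
    refine len_ev f m ?_ V
    rintro (_ | o)
    · simp only [reduceCtorEq, if_false]; exact hr.len
    · fin_cases o
      · simp only [Fin.zero_eta, if_true, h0]; exact Len.of_ _ _ _
      · simp only [Fin.mk_one, Option.some.injEq, Fin.reduceEq, if_false, h1]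
        exact (Len.t _).mono hm
  rw [ev_append, ev_append, ev_rep, ev_rep, ev_append, ev_iv, hc, mul_assoc] at h
  have h4 : (ev f Om * of cc) ^ (k + 1) = ((of cc : Γ)⁻¹ ^ (k + 1) * ev f V)⁻¹ :=
    eq_inv_of_mul_eq_one_left h
  rw [h4] at h2
  have h5 : Len Af.φ (m * wt V) ((of cc : Γ)⁻¹ ^ (k + 1) * ev f V)⁻¹ := by
    rw [← map_inv, ← map_pow]
    exact (h3.of_mul _).inv
  refine h2.not_len ?_ h5
  calc m * wt V < m * (16 * (k + 1)) := Nat.mul_lt_mul_of_pos_left hV hm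
    _ = 16 * m * (k + 1) := by ring

end Pool.Agent.K6.H89.BG
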