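import Mathlib

/-!
# Reduced forms in HNN extensions

`Red φ h ε δ h' n g` : the element `g` has the reduced form `h t^ε … t^δ h'` with `n ≥ 1` letters
`t^{±1}`.  `Len φ N g` : the element `g` has a reduced form with at most `N` letters `t^{±1}`.
-/

set_option autoImplicit false

namespace Pool.Agent.K6.H89.BG

open HNNExtension HNNExtension.NormalWord

variable {G : Type} [Group G] {A B : Subgroup G} {φ : A ≃* B}

/-- reduced forms -/
inductive Red (φ : A ≃* B) : G → ℤˣ → ℤˣ → G → ℕ → HNNExtension G A B φ → Prop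
  | single (h h' : G) (ε : ℤˣ) : Red φ h ε ε h' 1 (of h * (t ^ (ε : ℤ) * of h'))
  | cons (h h1 h' : G) (ε1 ε2 δ : ℤˣ) (n : ℕ) (g : HNNExtension G A B φ)
      (hg : Red φ h1 ε2 δ h' n g) (hc : h1 ∈ toSubgroup A B ε1 → ε1 = ε2) :
      Red φ h ε1 δ h' (n + 1) (of h * (t ^ (ε1 : ℤ) * g))

theorem Red.congr {h h' : G} {ε δ : ℤˣ} {n : ℕ} {g g2 : HNNExtension G A B φ}
    (hg : Red φ h ε δ h' n g) (e : g2 = g) : Red φ h ε δ h' n g2 := e ▸ hg

theorem Red.left (k : G) {h h' : G} {ε δ : ℤˣ} {n : ℕ} {g : HNNExtension G A B φ}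
    (hg : Red φ h ε δ h' n g) : Red φ (k * h) ε δ h' n (of k * g) := by
  cases hg with
  | single => exact (Red.single _ _ _).congr (by rw [map_mul]; group)
  | cons _ h1 _ _ ε2 _ n g hg hc => exact (Red.cons _ _ _ _ _ _ _ _ hg hc).congr (by rw [map_mul]; group)

theorem Red.right (k : G) {h h' : G} {ε δ : ℤˣ} {n : ℕ} {g : HNNExtension G A B φ}
    (hg : Red φ h ε δ h' n g) : Red φ h ε δ (h' * k) n (g * of k) := by
  induction hg with
  | single => exact (Red.single _ _ _).congr (by rw [map_mul]; group)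
  | cons _ h1 _ _ ε2 _ n g hg hc ih => exact (Red.cons _ _ _ _ _ _ _ _ ih hc).congr (by group)

theorem Red.append {h h1 : G} {ε δ : ℤˣ} {n : ℕ} {g : HNNExtension G A B φ}
    (hg : Red φ h ε δ h1 n g) {h2 h' : G} {ε' δ' : ℤˣ} {n' : ℕ} {g' : HNNExtension G A B φ}
    (hg' : Red φ h2 ε' δ' h' n' g') (hc : h1 * h2 ∈ toSubgroup A B δ → δ = ε') :
    Red φ h ε δ' h' (n + n') (g * g') := by
  induction hg with
  | single a b e =>
    have := Red.cons a _ _ e _ _ _ _ (hg'.left b) hc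
    rw [add_comm] at this
    exact this.congr (by group)
  | cons a b c e1 e2 d m y hy hcy ih =>
    have := Red.cons a _ _ e1 _ _ _ _ (ih hc) hcy
    have e : m + 1 + n' = m + n' + 1 := by omega
    rw [e]
    exact this.congr (by group)

theorem units_ne {a b : ℤˣ} (h : a ≠ b) : -b = a := by
  rcases Int.units_eq_one_or a with rfl | rfl <;> rcases Int.units_eq_one_or b with rfl | rfl <;>
    simp_all

theorem Red.inv {h h' : G} {ε δ : ℤˣ} {n : ℕ} {g : HNNExtension G A B φ}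
    (hg : Red φ h ε δ h' n g) : Red φ h'⁻¹ (-δ) (-ε) h⁻¹ n g⁻¹ := by
  induction hg with
  | single a b e =>
    exact (Red.single (φ := φ) b⁻¹ a⁻¹ (-e)).congr (by
      rw [map_inv, map_inv, Units.val_neg, zpow_neg]; group)
  | cons a b c e1 e2 d m y hy hcy ih =>
    have h1 := ih.append (Red.single (φ := φ) 1 a⁻¹ (-e1)) (by
      rw [mul_one, Subgroup.inv_mem_iff]
      intro hb
      by_contra hne
      have h2 : e1 ≠ e2 := fun h => hne (by rw [h])
      rw [units_ne h2] at hb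
      exact h2 (hcy hb))
    exact h1.congr (by rw [map_inv, map_one, Units.val_neg, zpow_neg]; group)

theorem Red.word {h h' : G} {ε δ : ℤˣ} {n : ℕ} {g : HNNExtension G A B φ}
    (hg : Red φ h ε δ h' n g) : ∃ w : ReducedWord G A B, w.prod φ = g ∧ w.toList.length = n ∧
      w.head = h ∧ ∃ (x : G) (l : List (ℤˣ × G)), w.toList = (ε, x) :: l := by
  induction hg with
  | single a b e =>
    exact ⟨⟨a, [(e, b)], List.isChain_singleton _⟩, by simp [ReducedWord.prod], rfl, rfl, b, [], rfl⟩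
  | cons a b c e1 e2 d m y hy hcy ih =>
    obtain ⟨w, h1, h2, h3, x, l, h4⟩ := ih
    refine ⟨⟨a, (e1, b) :: w.toList, ?_⟩, ?_, by simp [h2], rfl, b, w.toList, rfl⟩
    · rw [h4]
      refine List.isChain_cons_cons.2 ⟨hcy, ?_⟩
      rw [← h4]
      exact w.chain
    · rw [← h1]
      simp [ReducedWord.prod, h3, mul_assoc]

theorem Red.pos {h h' : G} {ε δ : ℤˣ} {n : ℕ} {g : HNNExtension G A B φ}
    (hg : Red φ h ε δ h' n g) : 1 ≤ n := by
  cases hg <;> omega

theorem Red.not_of {h h' : G} {ε δ : ℤˣ} {n : ℕ} {g : HNNExtension G A B φ}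
    (hg : Red φ h ε δ h' n g) (k : G) : g ≠ of k := by
  intro hk
  obtain ⟨w, h1, h2, -, -⟩ := hg.word
  have h3 := ReducedWord.toList_eq_nil_of_mem_of_range φ w (by rw [h1, hk]; exact ⟨k, rfl⟩)
  have := hg.pos
  rw [h3] at h2
  simp at h2
  omega

theorem Red.ne_one {h h' : G} {ε δ : ℤˣ} {n : ℕ} {g : HNNExtension G A B φ}
    (hg : Red φ h ε δ h' n g) : g ≠ 1 := by
  have := hg.not_of 1
  rwa [map_one] at this

theorem Red.unique {h h' : G} {ε δ : ℤˣ} {n : ℕ} {g : HNNExtension G A B φ}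
    (hg : Red φ h ε δ h' n g) {k k' : G} {ε' δ' : ℤˣ} {m : ℕ} (hg' : Red φ k ε' δ' k' m g) :
    n = m := by
  obtain ⟨w, h1, h2, -, -⟩ := hg.word
  obtain ⟨w', h1', h2', -, -⟩ := hg'.word
  have := (ReducedWord.map_fst_eq_and_of_prod_eq φ (h1.trans h1'.symm)).1
  have h3 := congrArg List.length this
  simp only [List.length_map] at h3
  omega

/-- `g` has a reduced form with at most `N` letters `t^{±1}` -/
def Len (φ : A ≃* B) (N : ℕ) (g : HNNExtension G A B φ) : Prop :=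
  (∃ h, g = of h) ∨ ∃ h ε δ h' n, n ≤ N ∧ Red φ h ε δ h' n g

theorem Len.of_ (φ : A ≃* B) (N : ℕ) (h : G) : Len φ N (of h) := Or.inl ⟨h, rfl⟩

theorem Len.one (φ : A ≃* B) (N : ℕ) : Len φ N 1 := Or.inl ⟨1, (map_one _).symm⟩

theorem Len.mono {N M : ℕ} (h : N ≤ M) {g : HNNExtension G A B φ} (hg : Len φ N g) :
    Len φ M g := by
  rcases hg with hg | ⟨a, b, c, d, n, hn, hg⟩
  · exact Or.inl hg
  · exact Or.inr ⟨a, b, c, d, n, hn.trans h, hg⟩

theorem Red.len {h h' : G} {ε δ : ℤˣ} {n : ℕ} {g : HNNExtension G A B φ}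
    (hg : Red φ h ε δ h' n g) : Len φ n g := Or.inr ⟨_, _, _, _, _, le_rfl, hg⟩

theorem Len.of_mul (k : G) {N : ℕ} {g : HNNExtension G A B φ} (hg : Len φ N g) :
    Len φ N (of k * g) := by
  rcases hg with ⟨h, rfl⟩ | ⟨a, b, c, d, n, hn, hg⟩
  · exact Or.inl ⟨k * h, (map_mul _ _ _).symm⟩
  · exact Or.inr ⟨_, _, _, _, _, hn, hg.left k⟩

theorem t_conj {ε : ℤˣ} {h : G} (hh : h ∈ toSubgroup A B ε) :
    ∃ k : G, (t ^ (ε : ℤ) * (of h * t ^ ((-ε : ℤˣ) : ℤ)) : HNNExtension G A B φ) = of k := by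
  rcases Int.units_eq_one_or ε with rfl | rfl
  · refine ⟨φ ⟨h, hh⟩, ?_⟩
    have := equiv_eq_conj (φ := φ) ⟨h, hh⟩
    rw [this]
    simp [mul_assoc]
  · refine ⟨φ.symm ⟨h, hh⟩, ?_⟩
    have := equiv_symm_eq_conj (φ := φ) ⟨h, hh⟩
    rw [this]
    simp [mul_assoc]

theorem Len.t_mul (ε : ℤˣ) {N : ℕ} {g : HNNExtension G A B φ} (hg : Len φ N g) :
    Len φ (N + 1) (t ^ (ε : ℤ) * g) := by
  rcases hg with ⟨h, rfl⟩ | ⟨a, b, c, d, n, hn, hg⟩
  · exact Or.inr ⟨1, ε, ε, h, 1, by omega, (Red.single 1 h ε).congr (by simp)⟩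
  · by_cases hc : a ∈ toSubgroup A B ε → ε = b
    · exact Or.inr ⟨1, ε, c, d, n + 1, by omega, (Red.cons 1 _ _ ε _ _ _ _ hg hc).congr (by simp)⟩
    · push Not at hc
      obtain ⟨h1, h2⟩ := hc
      have h3 := units_ne h2.symm
      obtain ⟨k, hk⟩ := t_conj (φ := φ) h1
      rw [h3] at hk
      cases hg with
      | single =>
        refine Or.inl ⟨k * d, ?_⟩
        rw [map_mul, ← hk]; group
      | cons _ h1 _ _ ε2 _ n g hg hc =>
        have e : (t ^ (ε : ℤ) * (of a * (t ^ (b : ℤ) * g)) : HNNExtension G A B φ) = of k * g := by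
          rw [← hk]; group
        rw [e]
        exact (hg.len.of_mul k).mono (by omega)

theorem Red.mul_len {h h' : G} {ε δ : ℤˣ} {n : ℕ} {g : HNNExtension G A B φ}
    (hg : Red φ h ε δ h' n g) {N : ℕ} {g' : HNNExtension G A B φ} (hg' : Len φ N g') :
    Len φ (n + N) (g * g') := by
  induction hg with
  | single a b e =>
    have h1 := ((hg'.of_mul b).t_mul e).of_mul a
    have e1 : (of a * (t ^ (e : ℤ) * of b) * g' : HNNExtension G A B φ) =
      of a * (t ^ (e : ℤ) * (of b * g')) := by group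
    rw [e1]
    exact h1.mono (by omega)
  | cons a b c e1 e2 d m y hy hcy ih =>
    have h1 := (ih.t_mul e1).of_mul a
    have e : (of a * (t ^ (e1 : ℤ) * y) * g' : HNNExtension G A B φ) =
      of a * (t ^ (e1 : ℤ) * (y * g')) := by group
    rw [e]
    exact h1.mono (by omega)

theorem Len.mul {N M : ℕ} {g g' : HNNExtension G A B φ} (hg : Len φ N g) (hg' : Len φ M g') :
    Len φ (N + M) (g * g') := by
  rcases hg with ⟨h, rfl⟩ | ⟨a, b, c, d, n, hn, hg⟩
  · exact (hg'.of_mul h).mono (by omega)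
  · exact (hg.mul_len hg').mono (by omega)

theorem Len.inv {N : ℕ} {g : HNNExtension G A B φ} (hg : Len φ N g) : Len φ N g⁻¹ := by
  rcases hg with ⟨h, rfl⟩ | ⟨a, b, c, d, n, hn, hg⟩
  · exact Or.inl ⟨h⁻¹, (map_inv _ _).symm⟩
  · exact Or.inr ⟨_, _, _, _, _, hn, hg.inv⟩

theorem Len.t (φ : A ≃* B) : Len φ 1 (HNNExtension.t : HNNExtension G A B φ) := by
  have := (Len.one φ 0).t_mul (1 : ℤˣ)
  simpa using this

theorem exists_len (g : HNNExtension G A B φ) : ∃ N, Len φ N g := by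
  induction g using HNNExtension.induction_on with
  | of g => exact ⟨0, Len.of_ φ 0 g⟩
  | t => exact ⟨1, Len.t φ⟩
  | mul x y hx hy =>
    obtain ⟨N, hN⟩ := hx
    obtain ⟨M, hM⟩ := hy
    exact ⟨_, hN.mul hM⟩
  | inv x hx =>
    obtain ⟨N, hN⟩ := hx
    exact ⟨_, hN.inv⟩

theorem of_or_red (g : HNNExtension G A B φ) :
    (∃ h, g = of h) ∨ ∃ h ε δ h' n, Red φ h ε δ h' n g := by
  obtain ⟨N, h | ⟨a, b, c, d, n, -, h⟩⟩ := exists_len g
  · exact Or.inl h
  · exact Or.inr ⟨a, b, c, d, n, h⟩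

/-- A long reduced form is not short. -/
theorem Red.not_len {h h' : G} {ε δ : ℤˣ} {n : ℕ} {g : HNNExtension G A B φ}
    (hg : Red φ h ε δ h' n g) {N : ℕ} (hN : N < n) : ¬ Len φ N g := by
  rintro (⟨k, hk⟩ | ⟨a, b, c, d, m, hm, hg'⟩)
  · exact hg.not_of k hk
  · have := hg.unique hg'
    omega

end Pool.Agent.K6.H89.BG
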