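import Pool.Agent.K6.H89.BG.Fin
import Pool.Agent.K6.H89.BG.Grp

/-!
# The reduction
-/

set_option autoImplicit false

namespace Pool.Agent.K6.H89.BG

open HNNExtension HNNExtension.NormalWord Af

section rel

variable {G : Type} [Group G] {a t : G}

theorem Rel.ab (h : Rel a t) (i i' : ℤ) (j j' : ℕ) :
    a ^ i * (t * a * t⁻¹) ^ j * (a ^ i' * (t * a * t⁻¹) ^ j') =
      a ^ (i + i' * 2 ^ j) * (t * a * t⁻¹) ^ (j + j') := by
  rw [zpow_add, ← h.pow i' j, pow_add]
  group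

theorem Rel.Om (f : Option (Fin 2) → G) (h : Rel (f (some 0)) (f (some 1))) (q : ℤ) (k : ℕ)
    (hx : f none = f (some 0) ^ q * (f (some 1) * f (some 0) * (f (some 1))⁻¹) ^ k) :
    ev f Om = 1 := by
  set a := f (some 0) with ha
  set t := f (some 1) with ht
  set b := t * a * t⁻¹ with hb
  have hc : ev f lc = a ^ (1 : ℤ) * b ^ 2 := by
    simp only [lc, lb, ev_append, ev_cj, ev_la, ev_lt, ← ha, ← ht, ← hb]
    rw [zpow_one, pow_two, mul_assoc]
  have hc2 : ev f lc * ev f lc = a ^ (5 : ℤ) * b ^ 4 := by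
    have e : (1 : ℤ) + 1 * 2 ^ 2 = 5 := by norm_num
    rw [hc, h.ab, e]
  obtain ⟨s, hs⟩ : ∃ s : ℤ, s = 2 ^ k - 3 * q := ⟨_, rfl⟩
  have hg : f none * ev f lc * (f none)⁻¹ = a ^ s * b ^ 2 := by
    rw [mul_inv_eq_iff_eq_mul, hx, hc, h.ab, h.ab, hs]
    congr 2
    · ring
    · ring
  have h1 : ∀ x y : G, x * y * x⁻¹ * y⁻¹ = (x * y) * (y * x)⁻¹ := by intro x y; group
  have e1 : ev f (cm (cj lx lc) lc) = a ^ (3 - 3 * s) := by
    rw [ev_cm, ev_cj, ev_lx, hg, h1, mul_inv_eq_iff_eq_mul, hc, h.ab, h.ab, ← mul_assoc,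
      ← zpow_add]
    congr 2
    ring
  have e2 : ev f (cm (cj lx lc) (lc ++ lc)) = a ^ (15 - 15 * s) := by
    rw [ev_cm, ev_cj, ev_lx, hg, h1, mul_inv_eq_iff_eq_mul, ev_append, hc2, h.ab, h.ab, ← mul_assoc,
      ← zpow_add]
    congr 2
    ring
  rw [BG.Om, ev_cm, e1, e2]
  group

theorem test_one (f : Option (Fin 2) → G) (h : Rel (f (some 0)) (f (some 1))) {E : W} {m : ℤ}
    (hE : ev f E = f (some 0) ^ m) : ev f (test E) = 1 := by
  rw [test, ev_cm, ev_shl, ev_la, hE, (h.test m).eq]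
  group

end rel

theorem u_fst (k : ℤ) : (((u ^ k : Rˣ) : R)).1 = (2 : ℚ) ^ k := by
  have h1 : Units.map (RingHom.fst ℚ (ZMod 3)).toMonoidHom u = Units.mk0 2 (by norm_num) :=
    Units.ext rfl
  have h2 : Units.map (RingHom.fst ℚ (ZMod 3)).toMonoidHom (u ^ k) =
      (Units.mk0 2 (by norm_num)) ^ k := by rw [map_zpow, h1]
  have h3 := congrArg Units.val h2
  rw [Units.val_zpow_eq_zpow_val] at h3
  exact h3

theorem u_nat (k : ℕ) : ((u ^ (k : ℤ) : Rˣ) : R) = ((2 ^ k : ℤ) : R) := by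
  rw [zpow_natCast, Units.val_pow_eq_pow_val]
  push_cast
  congr 1

theorem two_zpow_int {Z m : ℤ} (h : (2 : ℚ) ^ Z = m) : 0 ≤ Z := by
  by_contra hneg
  push Not at hneg
  have h1 : (2 : ℚ) ^ Z < 1 := zpow_lt_one_of_neg₀ (by norm_num) hneg
  have h2 : (0 : ℚ) < 2 ^ Z := zpow_pos (by norm_num) _
  rw [h] at h1 h2
  have h3 : m < 1 := by exact_mod_cast h1
  have h4 : 0 < m := by exact_mod_cast h2
  omega

theorem two_zpow_nonneg {Z : ℤ} (h : 0 ≤ Z) : (2 : ℚ) ^ Z = ((2 ^ Z.toNat : ℤ) : ℚ) := by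
  obtain ⟨m, rfl⟩ := Int.eq_ofNat_of_zero_le h
  simp

/-- the relator `(t a t⁻¹) a (t a t⁻¹)⁻¹ a⁻²` -/
def relBG : FreeGroup (Fin 2) :=
  (FreeGroup.of 1 * FreeGroup.of 0 * (FreeGroup.of 1)⁻¹) * FreeGroup.of 0 *
    (FreeGroup.of 1 * FreeGroup.of 0 * (FreeGroup.of 1)⁻¹)⁻¹ * (FreeGroup.of 0 ^ 2)⁻¹

/-- the Baumslag–Gersten group -/
abbrev BGp : Type := PresentedGroup ({relBG} : Set (FreeGroup (Fin 2)))

/-- the values of the letters -/
def vl (g : BGp) : Option (Fin 2) → BGp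
  | none => g
  | some i => PresentedGroup.of i

theorem rel_BGp (g : BGp) : Rel (vl g (some 0)) (vl g (some 1)) := by
  have h : PresentedGroup.mk ({relBG} : Set (FreeGroup (Fin 2)))
      ((FreeGroup.of 1 * FreeGroup.of 0 * (FreeGroup.of 1)⁻¹) * FreeGroup.of 0 *
        (FreeGroup.of 1 * FreeGroup.of 0 * (FreeGroup.of 1)⁻¹)⁻¹ * (FreeGroup.of 0 ^ 2)⁻¹) = 1 :=
    PresentedGroup.one_of_mem (Set.mem_singleton _)
  rw [map_mul, mul_eq_one_iff_eq_inv, map_inv, inv_inv] at h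
  simp only [map_mul, map_inv, map_pow] at h
  exact h

theorem rel_Γ : Rel (ia 1) tt := by
  have h := tt_conj 1
  rw [Int.cast_one] at h
  unfold Rel
  rw [h]
  have h2 : (of (di 1) * ia 1 * (of (di 1))⁻¹ : Γ) = of (di 1 * tr 1 * (di 1)⁻¹) := by
    rw [map_mul, map_mul, map_inv]; rfl
  rw [h2, di_tr, ← zpow_natCast (ia 1) 2, ia_zpow]
  have h3 := u_nat 1
  rw [Nat.cast_one] at h3
  rw [h3, ia]
  congr 2
  push_cast
  ring

/-- the homomorphism to the model -/
noncomputable def Θ : BGp →* Γ :=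
  PresentedGroup.toGroup (f := fun i : Fin 2 => if i = 0 then ia 1 else tt) (by
    intro r hr
    rw [Set.mem_singleton_iff] at hr
    subst hr
    rw [relBG, map_mul, mul_eq_one_iff_eq_inv, map_inv, inv_inv]
    simp only [map_mul, map_inv, map_pow, FreeGroup.lift_apply_of]
    exact rel_Γ)

theorem Θ_vl (g : BGp) : (Θ (vl g (some 0)) = ia 1) ∧ Θ (vl g (some 1)) = tt := by
  constructor
  · show Θ (PresentedGroup.of 0) = _
    rw [Θ, PresentedGroup.toGroup.of]
    simp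
  · show Θ (PresentedGroup.of 1) = _
    rw [Θ, PresentedGroup.toGroup.of]
    simp

/-- The reduction: every recursively enumerable set is reduced to the one-variable equations over the
Baumslag–Gersten group. -/
theorem reduction {P : ℕ → Prop} (hP : REPred P) : ∃ w : ℕ → W, Primrec w ∧
    ∀ n, P n ↔ ∃ g : BGp, ev (vl g) (w n) = 1 := by
  obtain ⟨X, A, N, F, ⟨wX, hwX, hX⟩, ⟨wA, hwA, hA⟩, ⟨wN, hwN, hN⟩, ⟨wF, hwF, hF⟩, ⟨wD, hwD, hD⟩,
    hDpos, hcrit⟩ := criterion hP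
  -- the words
  set Fw : ℕ → W := fun n => shl Ra (iv (wF n)) with hFw
  set Zw : ℕ → W := fun n => wX n ++ iv (shl Ra (wA n)) ++ Ra ++ shl Ra (wN n) with hZw
  set Vw : ℕ → W := fun n => wD n ++ iv (Zw n) with hVw
  set Ew : ℕ → W := fun n => shl la (Zw n) ++ shl la (Vw n) with hEw
  have wfF : WF Fw := (WF.const Ra).shl hwF.iv
  have wfZ : WF Zw := ((hwX.append ((WF.const Ra).shl hwA).iv).append (WF.const Ra)).append
    ((WF.const Ra).shl hwN)
  have wfV : WF Vw := hwD.append wfZ.iv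
  have wfE : WF Ew := ((WF.const la).shl wfZ).append ((WF.const la).shl wfV)
  have wf1 := wfE.test
  obtain ⟨-, C3, hC3⟩ := id wf1
  have wf2 := ((wfF.test).rep (C3 + 1)).append wf1
  obtain ⟨-, C2, hC2⟩ := id wf2
  have wf3 := (((WF.const Ka).test).rep (C2 + 1)).append wf2
  obtain ⟨-, C1, hC1⟩ := id wf3
  have wf4 := ((WF.const (rep (C1 + 1) (Om ++ lc))).append (WF.const (rep (C1 + 1) (iv lc)))).append wf3
  refine ⟨_, wf4.1, fun n => ?_⟩
  -- evaluation of `Z` and `V`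
  have evalZ : ∀ (G : Type) [Group G] (f : Option (Fin 2) → G) (K : ℕ), Mod f K → ∀ q : ℤ,
      ev f Ra = f (some 0) ^ q →
      ev f (Zw n) = f (some 0) ^ ((X n K : ℤ) - q * (2 ^ A n K - 1 - 2 ^ N n K)) := by
    intro G _ f K hf q hq
    simp only [hZw]
    rw [ev_append, ev_append, ev_append, ev_iv, ev_shl, ev_shl, hq, hX G f K hf, hA G f K hf,
      hN G f K hf, hf.1.shl _ _ (Int.natCast_nonneg _), hf.1.shl _ _ (Int.natCast_nonneg _),
      Int.toNat_natCast, Int.toNat_natCast, ← zpow_neg, ← zpow_add, ← zpow_add, ← zpow_add]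
    congr 1
    ring
  have evalV : ∀ (G : Type) [Group G] (f : Option (Fin 2) → G) (K : ℕ), Mod f K → ∀ q : ℤ,
      ev f Ra = f (some 0) ^ q →
      ev f (Vw n) = f (some 0) ^ (((2 : ℤ) ^ A n K - 1 - 2 ^ N n K - 1) -
        ((X n K : ℤ) - q * (2 ^ A n K - 1 - 2 ^ N n K))) := by
    intro G _ f K hf q hq
    simp only [hVw]
    rw [ev_append, ev_iv, evalZ G f K hf q hq, hD G f K hf, ← zpow_neg, ← zpow_add]
    congr 1
  rw [hcrit]
  constructor
  · -- existence of a solution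
    rintro ⟨k, q, z, hq, hZ, hV⟩
    set a : BGp := PresentedGroup.of 0 with ha
    set t : BGp := PresentedGroup.of 1 with ht
    set b : BGp := t * a * t⁻¹ with hb
    refine ⟨a ^ q * b ^ k, ?_⟩
    set f := vl (a ^ q * b ^ k) with hf
    have h0 : f (some 0) = a := rfl
    have h1 : f (some 1) = t := rfl
    have hx : f none = a ^ q * b ^ k := rfl
    have hrel : Rel (f (some 0)) (f (some 1)) := rel_BGp _
    have hmod : Mod f (2 ^ k) := by
      refine ⟨hrel, ?_⟩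
      have h2 := Rel.pow hrel 1 k
      rw [h0, h1, ← hb, zpow_one, one_mul] at h2
      rw [hx, h0]
      have h3 : a ^ q * b ^ k * a * (a ^ q * b ^ k)⁻¹ = a ^ q * (b ^ k * a * (b ^ k)⁻¹) * (a ^ q)⁻¹ := by
        group
      rw [h3, h2, ← zpow_natCast a (2 ^ k)]
      push_cast
      group
    have hRa : ev f Ra = f (some 0) ^ q := by
      rw [Ra, ev_cm, lb, ev_cj, ev_lt, ev_la, ev_lx, h0, h1, hx, ← hb]
      have h2 := Rel.pow hrel q 1
      rw [h0, h1, ← hb, pow_one, pow_one] at h2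
      have h3 : b * (a ^ q * b ^ k) * b⁻¹ * (a ^ q * b ^ k)⁻¹ = (b * a ^ q * b⁻¹) * (a ^ q)⁻¹ := by
        group
      rw [h3, h2, ← zpow_neg, ← zpow_add]
      congr 1
      ring
    have hOm : ev f Om = 1 := Rel.Om f hrel q k hx
    have hKa : ev f Ka = f (some 0) ^ (2 ^ k : ℤ) := by
      rw [Ka, ev_cj, ev_lx, ev_la, hmod.2, ← zpow_natCast]
      push_cast
      rfl
    have hFe : ev f (Fw n) = f (some 0) ^ z := by
      simp only [hFw]
      rw [ev_shl, ev_iv, hRa, hF BGp f _ hmod, hq]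
      have := Rel.shl_neg hrel z (F n (2 ^ k)) (Int.natCast_nonneg _)
      rwa [Int.toNat_natCast] at this
    have hEe : ∃ m : ℤ, ev f (Ew n) = f (some 0) ^ m := by
      have hZe := evalZ BGp f _ hmod q hRa
      have hVe := evalV BGp f _ hmod q hRa
      generalize (X n (2 ^ k) : ℤ) - q * (2 ^ A n (2 ^ k) - 1 - 2 ^ N n (2 ^ k)) = Z at *
      generalize (2 : ℤ) ^ A n (2 ^ k) - 1 - 2 ^ N n (2 ^ k) - 1 - Z = V at *
      refine ⟨1 * 2 ^ Z.toNat + 1 * 2 ^ V.toNat, ?_⟩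
      simp only [hEw]
      rw [ev_append, ev_shl, ev_shl, ev_la, hZe, hVe]
      have h2 := Rel.shl hrel 1 _ hZ
      have h3 := Rel.shl hrel 1 _ hV
      rw [zpow_one] at h2 h3
      rw [h2, h3, ← zpow_add]
    obtain ⟨m, hm⟩ := hEe
    rw [ev_append, ev_append, ev_rep, ev_rep, ev_append, ev_append, ev_append, ev_rep, ev_rep, hOm,
      ev_iv, test_one f hrel hKa, test_one f hrel hFe, test_one f hrel hm]
    simp
  · -- soundness
    rintro ⟨g, hg⟩
    have hg2 := congrArg Θ hg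
    rw [ev_map, map_one] at hg2
    set f : Option (Fin 2) → Γ := fun o => Θ (vl g o) with hf
    have h0 : f (some 0) = ia 1 := (Θ_vl g).1
    have h1 : f (some 1) = tt := (Θ_vl g).2
    have hrel : Rel (f (some 0)) (f (some 1)) := by rw [h0, h1]; exact rel_Γ
    have hb : f (some 1) * f (some 0) * (f (some 1))⁻¹ = of (di 1) := by
      rw [h0, h1]
      have := tt_conj 1
      rwa [Int.cast_one] at this
    have hc : ev f lc = of cc := by
      simp only [lc, lb, ev_append, ev_cj, ev_la, ev_lt, hb]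
      rw [h0, ia, ← map_mul, ← map_mul]
      congr 1
      refine Af.ext ?_ ?_
      · simp only [mul_r, tr, di, mul_zero, add_zero]
        rfl
      · simp only [mul_k, tr, di]
        rfl
    -- the variable is in the base group
    by_cases hout : ∀ y, f none ≠ of y
    · exact absurd hg2 (outside h0 h1 hc hout (C1 + 1) _ (by have h := hC1 n; simp only [] at h ⊢; omega))
    push Not at hout
    obtain ⟨y, hy⟩ := hout
    have hOm := Om_base hc hy
    rw [ev_append, ev_append, ev_rep, ev_rep, ev_append, hOm, one_mul, ev_iv, inv_pow,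
      mul_inv_cancel, one_mul] at hg2
    -- the first test
    have hKa : ev f Ka = ia (((u ^ y.k : Rˣ) : R) * 1) := by
      rw [Ka, ev_cj, ev_lx, ev_la, hy, h0, ia, ← map_inv, ← map_mul, ← map_mul, conj_tr]
      rfl
    have hK : ∃ z : ℤ, ((u ^ y.k : Rˣ) : R) * 1 = z := by
      by_contra hne
      push Not at hne
      exact test_pow hne h0 h1 hy hKa (C2 + 1) _ (by have h := hC2 n; simp only [] at h ⊢; omega) hg2
    obtain ⟨z0, hz0⟩ := hK
    have hk0 : 0 ≤ y.k := by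
      have := congrArg Prod.fst hz0
      rw [mul_one, u_fst] at this
      exact two_zpow_int (m := z0) (by simpa using this)
    obtain ⟨k, hk⟩ := Int.eq_ofNat_of_zero_le hk0
    have hKa2 : ev f Ka = f (some 0) ^ (2 ^ k : ℤ) := by
      rw [hKa, mul_one, hk, u_nat, h0, ia_zpow]
    rw [ev_append, ev_rep, test_one f hrel hKa2, one_pow, one_mul] at hg2
    have hmod : Mod f (2 ^ k) := by
      refine ⟨hrel, ?_⟩
      have := hKa2
      rw [Ka, ev_cj, ev_lx, ev_la] at this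
      rw [this, ← zpow_natCast]
      push_cast
      rfl
    -- the second test
    have hRa : ev f Ra = ia y.r := by
      rw [Ra, ev_cm, lb, ev_cj, ev_lt, ev_la, ev_lx, hb, hy, ia, ← map_inv, ← map_inv, ← map_mul,
        ← map_mul, ← map_mul]
      congr 1
      refine Af.ext ?_ ?_
      · simp only [mul_r, mul_k, inv_r, inv_k, tr, di, zero_add, neg_zero, mul_zero, add_zero]
        have e1 : ((u ^ (1 : ℤ) : Rˣ) : R) = 2 := by rw [zpow_one]; rfl
        have e2 : (1 : ℤ) + y.k + -1 = y.k := by ring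
        rw [e1, e2]
        have e3 : ((u ^ y.k : Rˣ) : R) * ((u ^ (-y.k) : Rˣ) : R) = 1 := by
          rw [← Units.val_mul, ← zpow_add, add_neg_cancel, zpow_zero]; rfl
        linear_combination (-y.r) * e3
      · simp only [mul_k, inv_k, tr, di]; ring
    have hFe : ev f (Fw n) = ia (((u ^ (-(F n (2 ^ k) : ℤ)) : Rˣ) : R) * y.r) := by
      simp only [hFw]
      rw [ev_shl, ev_iv, hRa, hF Γ f _ hmod]
      have h2 : f (some 1) * (f (some 0) ^ (F n (2 ^ k) : ℤ))⁻¹ * (f (some 1))⁻¹ =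
          of (di (-(F n (2 ^ k) : ℤ))) := by
        rw [← zpow_neg, h0, h1, ia_zpow, tt_conj]
      rw [h2, ia, ← map_inv, ← map_mul, ← map_mul, di_tr]
      rfl
    have hF2 : ∃ z : ℤ, ((u ^ (-(F n (2 ^ k) : ℤ)) : Rˣ) : R) * y.r = z := by
      by_contra hne
      push Not at hne
      exact test_pow hne h0 h1 hy hFe (C3 + 1) _ (by have h := hC3 n; simp only [] at h ⊢; omega) hg2
    obtain ⟨z, hz⟩ := hF2
    rw [ev_append, ev_rep, test_one f hrel (m := z) (by rw [hFe, hz, h0, ia_zpow]), one_pow,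
      one_mul] at hg2
    set q : ℤ := z * 2 ^ F n (2 ^ k) with hq
    have hyr : y.r = (q : R) := by
      have e3 : ((u ^ (F n (2 ^ k) : ℤ) : Rˣ) : R) * ((u ^ (-(F n (2 ^ k) : ℤ)) : Rˣ) : R) = 1 := by
        rw [← Units.val_mul, ← zpow_add, add_neg_cancel, zpow_zero]; rfl
      have e4 : ((u ^ (F n (2 ^ k) : ℤ) : Rˣ) : R) * (((u ^ (-(F n (2 ^ k) : ℤ)) : Rˣ) : R) * y.r) =
          y.r := by rw [← mul_assoc, e3, one_mul]
      rw [hz, u_nat] at e4
      rw [← e4, hq]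
      push_cast
      ring
    have hRa2 : ev f Ra = f (some 0) ^ q := by rw [hRa, hyr, h0, ia_zpow]
    have hZe := evalZ Γ f _ hmod q hRa2
    have hVe := evalV Γ f _ hmod q hRa2
    set Z : ℤ := (X n (2 ^ k) : ℤ) - q * (2 ^ A n (2 ^ k) - 1 - 2 ^ N n (2 ^ k)) with hZ
    set V : ℤ := ((2 : ℤ) ^ A n (2 ^ k) - 1 - 2 ^ N n (2 ^ k) - 1) - Z with hV
    have hsh : ∀ m : ℤ, (f (some 1) * f (some 0) ^ m * (f (some 1))⁻¹) * f (some 0) *
        (f (some 1) * f (some 0) ^ m * (f (some 1))⁻¹)⁻¹ = ia (((u ^ m : Rˣ) : R) * 1) := by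
      intro m
      rw [h0, h1, ia_zpow, tt_conj, ia, ← map_inv, ← map_mul, ← map_mul, di_tr]
      rfl
    have hEe : ev f (Ew n) = ia (((u ^ Z : Rˣ) : R) * 1 + ((u ^ V : Rˣ) : R) * 1) := by
      simp only [hEw]
      rw [ev_append, ev_shl, ev_shl, ev_la, hZe, hVe, hsh, hsh, ia_mul]
    have hE2 : ∃ m : ℤ, ((u ^ Z : Rˣ) : R) * 1 + ((u ^ V : Rˣ) : R) * 1 = m := by
      by_contra hne
      push Not at hne
      refine test_pow hne h0 h1 hy hEe 1 [] (by rw [wt_nil]; norm_num) ?_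
      rw [ev_append, ev_rep, pow_one, ev_nil, mul_one]
      exact hg2
    obtain ⟨m, hm⟩ := hE2
    have hm1 : (2 : ℚ) ^ Z + (2 : ℚ) ^ V = m := by
      have := congrArg Prod.fst hm
      rw [mul_one, mul_one, Prod.fst_add, u_fst, u_fst] at this
      simpa using this
    have hsum : 0 ≤ Z + V := by
      have := hDpos n (2 ^ k)
      rw [hV]
      linarith
    refine ⟨k, q, z, hq, ?_, ?_⟩
    · by_contra hneg
      have hV0 : 0 ≤ V := by omega
      have h3 : (2 : ℚ) ^ Z = ((m - 2 ^ V.toNat : ℤ) : ℚ) := by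
        rw [two_zpow_nonneg hV0] at hm1
        push_cast at *
        linarith
      exact hneg (two_zpow_int h3)
    · by_contra hneg
      have hZ0 : 0 ≤ Z := by omega
      have h3 : (2 : ℚ) ^ V = ((m - 2 ^ Z.toNat : ℤ) : ℚ) := by
        rw [two_zpow_nonneg hZ0] at hm1
        push_cast at *
        linarith
      exact hneg (two_zpow_int h3)

end Pool.Agent.K6.H89.BG
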