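import Pool.Agent.K6.H89.BG.Cls
import Pool.Agent.Helper702.PolyA

/-!
# Recursively enumerable sets as sets of zeros of nonnegative polynomials
-/

set_option autoImplicit false

namespace Pool.Agent.K6.H89.BG

open MvPolynomial Pool.Agent.Helper702

/-- the value of a polynomial with coefficients depending on `n` -/
def Qv {ν : ℕ} (S : Finset (Fin ν →₀ ℕ)) (c : (Fin ν →₀ ℕ) → ℕ → ℤ) (n : ℕ) (x : Fin ν → ℕ) : ℤ :=
  ∑ m ∈ S, c m n * ∏ i, (x i : ℤ) ^ m i

theorem sum_support {ν : ℕ} (q : MvPolynomial (Fin ν) ℤ) (S : Finset (Fin ν →₀ ℕ))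
    (hS : q.support ⊆ S) (x : Fin ν → ℤ) :
    ∑ m ∈ S, coeff m q * ∏ i, x i ^ m i = eval x q := by
  rw [MvPolynomial.eval_eq']
  symm
  refine Finset.sum_subset hS fun m _ hm => ?_
  rw [MvPolynomial.notMem_support_iff.1 hm, zero_mul]

theorem re_poly {P : ℕ → Prop} (hP : REPred P) : ∃ (ν : ℕ) (S : Finset (Fin ν →₀ ℕ))
    (c : (Fin ν →₀ ℕ) → ℕ → ℤ), (∀ m, CI (c m)) ∧ (∀ n x, 0 ≤ Qv S c n x) ∧
      ∀ n, P n ↔ ∃ x, Qv S c n x = 0 := by
  classical
  obtain ⟨δ, _, p, hp⟩ := finite_dummies (dprm hP)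
  obtain ⟨q, hq⟩ := poly_mv p
  set e := Fintype.equivFin (Unit ⊕ δ) with he
  set i0 := e (Sum.inl ()) with hi0
  set q0 : MvPolynomial (Fin (Fintype.card (Unit ⊕ δ))) ℤ := (rename e q) ^ 2 + X i0 ^ 2 with hq0
  set q1 : MvPolynomial (Fin (Fintype.card (Unit ⊕ δ))) ℤ := -2 * X i0 with hq1
  set q2 : MvPolynomial (Fin (Fintype.card (Unit ⊕ δ))) ℤ := 1 with hq2
  set S := q0.support ∪ (q1.support ∪ q2.support) with hS
  have hval : ∀ (n : ℕ) (x : Fin (Fintype.card (Unit ⊕ δ)) → ℕ),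
      Qv S (fun m n => coeff m q0 + (n : ℤ) * coeff m q1 + (n : ℤ) * (n : ℤ) * coeff m q2) n x =
        (p (x ∘ e)) ^ 2 + ((x i0 : ℤ) - n) ^ 2 := by
    intro n x
    unfold Qv
    have e1 : ∀ m ∈ S, (coeff m q0 + (n : ℤ) * coeff m q1 + (n : ℤ) * (n : ℤ) * coeff m q2) *
        ∏ i, ((x i : ℤ)) ^ m i = coeff m q0 * ∏ i, ((x i : ℤ)) ^ m i +
          (n : ℤ) * (coeff m q1 * ∏ i, ((x i : ℤ)) ^ m i) +
          (n : ℤ) * (n : ℤ) * (coeff m q2 * ∏ i, ((x i : ℤ)) ^ m i) := by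
      intro m _; ring
    rw [Finset.sum_congr rfl e1, Finset.sum_add_distrib, Finset.sum_add_distrib,
      ← Finset.mul_sum, ← Finset.mul_sum,
      sum_support q0 S (by rw [hS]; exact Finset.subset_union_left) (fun i => (x i : ℤ)),
      sum_support q1 S (by rw [hS]; exact Finset.subset_union_left.trans Finset.subset_union_right)
        (fun i => (x i : ℤ)),
      sum_support q2 S (by rw [hS]; exact Finset.subset_union_right.trans Finset.subset_union_right)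
        (fun i => (x i : ℤ))]
    have e2 : eval (fun i => (x i : ℤ)) (rename e q) = p (x ∘ e) := by
      rw [hq, eval_rename, ← MvPolynomial.coe_aeval_eq_eval]
      rfl
    simp only [hq0, hq1, hq2, map_add, map_pow, map_mul, map_neg, map_one, eval_X, e2]
    have e3 : eval (fun i => (x i : ℤ)) (2 : MvPolynomial (Fin (Fintype.card (Unit ⊕ δ))) ℤ) = 2 :=
      map_ofNat _ 2
    rw [e3]
    ring
  refine ⟨Fintype.card (Unit ⊕ δ), S,
    fun m n => coeff m q0 + (n : ℤ) * coeff m q1 + (n : ℤ) * (n : ℤ) * coeff m q2, ?_, ?_, ?_⟩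
  · intro m
    have hn : CI (fun n => (n : ℤ)) := CI.nat Primrec.id
    exact ((CI.const _).add (hn.mul (CI.const _))).add ((hn.mul hn).mul (CI.const _))
  · intro n x
    rw [hval]
    positivity
  · intro n
    have h1 : P n ↔ ∃ t, p (Sum.elim (fun _ => n) t) = 0 := hp (fun _ => n)
    rw [h1]
    constructor
    · rintro ⟨t, ht⟩
      refine ⟨(Sum.elim (fun _ => n) t) ∘ e.symm, ?_⟩
      rw [hval]
      have h2 : ((Sum.elim (fun _ => n) t) ∘ e.symm) ∘ e = Sum.elim (fun _ : Unit => n) t := by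
        funext i; simp
      rw [h2, ht, hi0]
      simp
    · rintro ⟨x, hx⟩
      rw [hval] at hx
      have h2 : p (x ∘ e) = 0 := by nlinarith [sq_nonneg (p (x ∘ e)), sq_nonneg ((x i0 : ℤ) - n)]
      have h3 : (x i0 : ℤ) - n = 0 := by nlinarith [sq_nonneg (p (x ∘ e)), sq_nonneg ((x i0 : ℤ) - n)]
      refine ⟨fun d => x (e (Sum.inr d)), ?_⟩
      rw [← h2]
      congr 1
      funext i
      rcases i with i | i
      · have : x i0 = n := by omega
        rw [← this]; rfl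
      · rfl

theorem CI.bound {c : ℕ → ℤ} (hc : CI c) : ∃ b : ℕ → ℕ, Primrec b ∧ ∀ n, c n ≤ b n := by
  obtain ⟨p, q, hp, hq, h⟩ := hc
  exact ⟨p, hp, fun n => by rw [h]; omega⟩

theorem primrec_sum {ι : Type} (S : Finset ι) (b : ι → ℕ → ℕ) (hb : ∀ i, Primrec (b i)) :
    Primrec (fun n => ∑ i ∈ S, b i n) := by
  classical
  induction S using Finset.induction_on with
  | empty => simpa using Primrec.const 0
  | insert a S ha ih =>
    have := Primrec.nat_add.comp (hb a) ih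
    refine this.of_eq fun n => ?_
    rw [Finset.sum_insert ha]

/-- a bound for the values of the polynomial in a box -/
theorem Q_bound {ν : ℕ} (S : Finset (Fin ν →₀ ℕ)) (c : (Fin ν →₀ ℕ) → ℕ → ℤ)
    (hc : ∀ m, CI (c m)) : ∃ C : ℕ → ℕ, Primrec C ∧ (∀ n, 1 ≤ C n) ∧
      ∀ (n K : ℕ) (x : Fin ν → ℕ), (∀ i, x i < 2 ^ K) → Qv S c n x ≤ 2 ^ (C n * 2 ^ K) := by
  classical
  choose b hb hcb using fun m => (hc m).bound
  set Dg := ∑ m ∈ S, ∑ i, m i with hDg
  refine ⟨fun n => (∑ m ∈ S, b m n) + Dg + 1, ?_, fun n => Nat.succ_pos _, ?_⟩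
  · exact Primrec.nat_add.comp (Primrec.nat_add.comp (primrec_sum S b hb) (Primrec.const _))
      (Primrec.const _)
  · intro n K x hx
    have h1 : Qv S c n x ≤ ∑ m ∈ S, (b m n : ℤ) * 2 ^ (K * Dg) := by
      unfold Qv
      refine Finset.sum_le_sum fun m hm => ?_
      have h2 : ∏ i, (x i : ℤ) ^ m i ≤ 2 ^ (K * Dg) := by
        have h3 : ∏ i, (x i : ℤ) ^ m i ≤ ∏ i, ((2 : ℤ) ^ K) ^ m i := by
          refine Finset.prod_le_prod (fun i _ => by positivity) fun i _ => ?_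
          refine pow_le_pow_left₀ (by positivity) ?_ _
          exact_mod_cast (hx i).le
        refine h3.trans ?_
        rw [Finset.prod_pow_eq_pow_sum, ← pow_mul]
        refine pow_le_pow_right₀ (by norm_num) (Nat.mul_le_mul_left _ ?_)
        exact Finset.single_le_sum (f := fun m : Fin ν →₀ ℕ => ∑ i, m i) (fun _ _ => Nat.zero_le _) hm
      have h4 : (0 : ℤ) ≤ ∏ i, (x i : ℤ) ^ m i := Finset.prod_nonneg fun i _ => by positivity
      calc c m n * ∏ i, (x i : ℤ) ^ m i ≤ (b m n : ℤ) * ∏ i, (x i : ℤ) ^ m i :=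
            mul_le_mul_of_nonneg_right (hcb m n) h4
        _ ≤ (b m n : ℤ) * 2 ^ (K * Dg) := mul_le_mul_of_nonneg_left h2 (Int.natCast_nonneg _)
    refine h1.trans ?_
    rw [← Finset.sum_mul]
    have h5 : (∑ m ∈ S, (b m n : ℤ)) ≤ 2 ^ (∑ m ∈ S, b m n) := by
      have := (Nat.lt_two_pow_self (n := ∑ m ∈ S, b m n)).le
      exact_mod_cast this
    calc (∑ m ∈ S, (b m n : ℤ)) * 2 ^ (K * Dg) ≤ 2 ^ (∑ m ∈ S, b m n) * 2 ^ (K * Dg) :=
          mul_le_mul_of_nonneg_right h5 (by positivity)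
      _ = 2 ^ (∑ m ∈ S, b m n + K * Dg) := by rw [pow_add]
      _ ≤ 2 ^ (((∑ m ∈ S, b m n) + Dg + 1) * 2 ^ K) := by
        refine pow_le_pow_right₀ (by norm_num) ?_
        have h6 : K ≤ 2 ^ K := (Nat.lt_two_pow_self (n := K)).le
        have h7 : 1 ≤ 2 ^ K := Nat.one_le_two_pow
        nlinarith [Nat.mul_le_mul_left (∑ m ∈ S, b m n) h7, Nat.mul_le_mul_left Dg h6]

end Pool.Agent.K6.H89.BG
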