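import Pool.Agent.K6.H89.BG.Base

/-!
# Words with constants `a`, `t` and a variable `x`
-/

set_option autoImplicit false

namespace Pool.Agent.K6.H89.BG

/-- words: the letter `(some 0, _)` is `a`, `(some 1, _)` is `t`, `(none, _)` is `x` -/
abbrev W : Type := List (Option (Fin 2) × Bool)

section eval

variable {G : Type} [Group G]

/-- the value of a word -/
def ev (f : Option (Fin 2) → G) (w : W) : G :=
  (w.map (fun l => if l.2 = true then f l.1 else (f l.1)⁻¹)).prod

theorem ev_append (f : Option (Fin 2) → G) (v w : W) : ev f (v ++ w) = ev f v * ev f w := by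
  simp [ev]

theorem ev_nil (f : Option (Fin 2) → G) : ev f [] = 1 := rfl

theorem ev_cons (f : Option (Fin 2) → G) (l : Option (Fin 2) × Bool) (w : W) :
    ev f (l :: w) = (if l.2 = true then f l.1 else (f l.1)⁻¹) * ev f w := by
  simp [ev]

/-- inverse word -/
def iv (w : W) : W := (w.map (fun l => (l.1, !l.2))).reverse

theorem ev_iv (f : Option (Fin 2) → G) (w : W) : ev f (iv w) = (ev f w)⁻¹ := by
  induction w with
  | nil => simp [iv, ev_nil]
  | cons l w ih =>
    have h : iv (l :: w) = iv w ++ [(l.1, !l.2)] := by simp [iv]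
    rw [h, ev_append, ih, ev_cons, ev_cons, ev_nil, mul_one, mul_inv_rev]
    congr 1
    rcases l with ⟨o, b⟩
    cases b <;> simp

theorem ev_map {H : Type} [Group H] (F : G →* H) (f : Option (Fin 2) → G) (w : W) :
    F (ev f w) = ev (fun o => F (f o)) w := by
  induction w with
  | nil => simp [ev_nil]
  | cons l w ih =>
    rw [ev_cons, ev_cons, map_mul, ih]
    congr 1
    split_ifs <;> simp

/-- power of a word -/
def rep (k : ℕ) (w : W) : W := (List.replicate k w).flatten

theorem ev_rep (f : Option (Fin 2) → G) (k : ℕ) (w : W) : ev f (rep k w) = ev f w ^ k := by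
  induction k with
  | zero => simp [rep, ev_nil]
  | succ k ih =>
    have h : rep (k + 1) w = w ++ rep k w := by simp [rep, List.replicate_succ]
    rw [h, ev_append, ih, pow_succ']

end eval

/-- number of letters different from `a^{±1}` -/
def wt (w : W) : ℕ := w.countP (fun l => l.1 ≠ some 0)

theorem wt_append (v w : W) : wt (v ++ w) = wt v + wt w := by simp [wt]

theorem wt_nil : wt [] = 0 := rfl

theorem wt_iv (w : W) : wt (iv w) = wt w := by
  unfold wt iv
  rw [List.countP_reverse, List.countP_map]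
  rfl

theorem wt_rep (k : ℕ) (w : W) : wt (rep k w) = k * wt w := by
  induction k with
  | zero => simp [rep, wt_nil]
  | succ k ih =>
    have h : rep (k + 1) w = w ++ rep k w := by simp [rep, List.replicate_succ]
    rw [h, wt_append, ih]; ring

/-- the letter `a` -/
def la : W := [(some 0, true)]
/-- the letter `t` -/
def lt : W := [(some 1, true)]
/-- the letter `x` -/
def lx : W := [(none, true)]

/-- conjugate -/
def cj (v w : W) : W := v ++ w ++ iv v

/-- commutator -/
def cm (v w : W) : W := v ++ w ++ iv v ++ iv w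

/-- `E 2^F` -/
def shl (E F : W) : W := cj (cj lt F) E

/-- the test whether `E` is an integer -/
def test (E : W) : W := cm (shl la E) la

/-- `b = t a t⁻¹` -/
def lb : W := cj lt la

/-- `c = a b²` -/
def lc : W := la ++ lb ++ lb

/-- `x a x⁻¹` -/
def Ka : W := cj lx la

/-- `b x b⁻¹ x⁻¹` -/
def Ra : W := cm lb lx

/-- the word that is trivial on the base group -/
def Om : W := cm (cm (cj lx lc) lc) (cm (cj lx lc) (lc ++ lc))

section eval

variable {G : Type} [Group G] (f : Option (Fin 2) → G)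

theorem ev_la : ev f la = f (some 0) := by simp [la, ev]
theorem ev_lt : ev f lt = f (some 1) := by simp [lt, ev]
theorem ev_lx : ev f lx = f none := by simp [lx, ev]

theorem ev_cj (v w : W) : ev f (cj v w) = ev f v * ev f w * (ev f v)⁻¹ := by
  rw [cj, ev_append, ev_append, ev_iv]

theorem ev_cm (v w : W) : ev f (cm v w) = ev f v * ev f w * (ev f v)⁻¹ * (ev f w)⁻¹ := by
  rw [cm, ev_append, ev_append, ev_append, ev_iv, ev_iv]

theorem ev_shl (E F : W) : ev f (shl E F) =
    (f (some 1) * ev f F * (f (some 1))⁻¹) * ev f E * (f (some 1) * ev f F * (f (some 1))⁻¹)⁻¹ := by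
  rw [shl, ev_cj, ev_cj, ev_lt]

end eval

theorem wt_cj (v w : W) : wt (cj v w) = 2 * wt v + wt w := by
  rw [cj, wt_append, wt_append, wt_iv]; ring

theorem wt_cm (v w : W) : wt (cm v w) = 2 * wt v + 2 * wt w := by
  rw [cm, wt_append, wt_append, wt_append, wt_iv, wt_iv]; ring

/-! ### the groups with the relation -/

/-- the relation of the Baumslag–Gersten group -/
def Rel {G : Type} [Group G] (a t : G) : Prop := (t * a * t⁻¹) * a * (t * a * t⁻¹)⁻¹ = a ^ 2

section rel

variable {G : Type} [Group G] {a t : G}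

theorem cjz (x y : G) (n : ℤ) : x * y ^ n * x⁻¹ = (x * y * x⁻¹) ^ n := conj_zpow.symm

theorem Rel.pow (h : Rel a t) (z : ℤ) (n : ℕ) :
    (t * a * t⁻¹) ^ n * a ^ z * ((t * a * t⁻¹) ^ n)⁻¹ = a ^ (z * 2 ^ n) := by
  induction n generalizing z with
  | zero => simp
  | succ n ih =>
    have e : (t * a * t⁻¹) ^ (n + 1) * a ^ z * ((t * a * t⁻¹) ^ (n + 1))⁻¹ =
        (t * a * t⁻¹) ^ n * ((t * a * t⁻¹) * a ^ z * (t * a * t⁻¹)⁻¹) * ((t * a * t⁻¹) ^ n)⁻¹ := by
      rw [pow_succ]; group
    rw [e, cjz, h, ← zpow_natCast a 2, ← zpow_mul, ih]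
    congr 1
    push_cast
    ring

/-- the value of `shl` -/
theorem Rel.shl (h : Rel a t) (z n : ℤ) (hn : 0 ≤ n) :
    (t * a ^ n * t⁻¹) * a ^ z * (t * a ^ n * t⁻¹)⁻¹ = a ^ (z * 2 ^ n.toNat) := by
  obtain ⟨m, rfl⟩ := Int.eq_ofNat_of_zero_le hn
  rw [cjz t a, zpow_natCast, h.pow]
  simp

theorem Rel.shl_neg (h : Rel a t) (z n : ℤ) (hn : 0 ≤ n) :
    (t * (a ^ n)⁻¹ * t⁻¹) * a ^ (z * 2 ^ n.toNat) * (t * (a ^ n)⁻¹ * t⁻¹)⁻¹ = a ^ z := by
  rw [← h.shl z n hn]
  group

/-- the test is trivial for integers -/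
theorem Rel.test (h : Rel a t) (n : ℤ) :
    Commute ((t * a ^ n * t⁻¹) * a * (t * a ^ n * t⁻¹)⁻¹) a := by
  rcases le_or_gt 0 n with hn | hn
  · have := h.shl 1 n hn
    rw [zpow_one] at this
    rw [this]
    exact (Commute.refl a).zpow_left _
  · have h1 := h.shl 1 (-n) (by omega)
    rw [zpow_one] at h1
    have h2 : Commute ((t * a ^ (-n) * t⁻¹) * a * (t * a ^ (-n) * t⁻¹)⁻¹) a := by
      rw [h1]; exact (Commute.refl a).zpow_left _
    have h3 : t * a ^ (-n) * t⁻¹ = (t * a ^ n * t⁻¹)⁻¹ := by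
      rw [zpow_neg]; group
    rw [h3, inv_inv] at h2
    have h4 : ∀ s : G, Commute (s⁻¹ * a * s) a → Commute (s * a * s⁻¹) a := by
      intro s hs
      have h5 := congrArg (fun y => s * y * s⁻¹) hs.eq
      have h6 : a * (s * a * s⁻¹) = s * a * s⁻¹ * a := by
        have e1 : s * (s⁻¹ * a * s * a) * s⁻¹ = a * (s * a * s⁻¹) := by group
        have e2 : s * (a * (s⁻¹ * a * s)) * s⁻¹ = s * a * s⁻¹ * a := by group
        rw [← e1, ← e2]
        exact h5
      exact h6.symm
    exact h4 _ h2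

end rel

end Pool.Agent.K6.H89.BG
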